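import Pool.Agent.H96.GEO.Gs

/-!
# Affine changes of the time

The class `V_E` is invariant under the affine changes of the time: the functions of a body at the
time `τ + ρ s` are the functions of another matrix at the time `s`.
-/

set_option autoImplicit false

namespace Pool.TB

open Finset Real MvPolynomial
open Pool.SH (Ln lpos)
open Pool.GEN (pnt)
open Pool.BJ (Ix mon dM mnr jm JF)
open Pool.KNB (Jx nJ mo cmb ev)

variable {m E : ℕ}

/-! ### The substitution -/

/-- The affine change of the time. -/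
noncomputable def tc (τ ρ : ℝ) :
    MvPolynomial (Option (Fin m)) ℝ →ₐ[ℝ] MvPolynomial (Option (Fin m)) ℝ :=
  aeval fun o => match o with
    | none => C τ + C ρ * X none
    | some i => X (some i)

theorem tc_none (τ ρ : ℝ) : tc (m := m) τ ρ (X none) = C τ + C ρ * X none := by
  simp [tc]

theorem tc_some (τ ρ : ℝ) (i : Fin m) : tc τ ρ (X (some i)) = X (some i) := by
  simp [tc]

theorem tc_C (τ ρ a : ℝ) : tc (m := m) τ ρ (C a) = C a := by
  simp [tc]

theorem eval_tc (τ ρ s : ℝ) (x : Fin m → ℝ) (P : MvPolynomial (Option (Fin m)) ℝ) :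
    eval (pnt s x) (tc τ ρ P) = eval (pnt (τ + ρ * s) x) P := by
  induction P using MvPolynomial.induction_on with
  | C a => rw [tc_C, eval_C, eval_C]
  | add p q hp hq => rw [map_add, map_add, map_add, hp, hq]
  | mul_X p o hp =>
    rw [map_mul, map_mul, map_mul, hp, eval_X]
    congr 1
    cases o with
    | none => rw [tc_none]; simp [pnt]
    | some i => rw [tc_some]; simp [pnt]

theorem pderiv_tc (τ ρ : ℝ) (i : Fin m) (P : MvPolynomial (Option (Fin m)) ℝ) :
    pderiv (some i) (tc τ ρ P) = tc τ ρ (pderiv (some i) P) := by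
  induction P using MvPolynomial.induction_on with
  | C a => rw [tc_C, pderiv_C, map_zero]
  | add p q hp hq => rw [map_add, map_add, map_add, map_add, hp, hq]
  | mul_X p o hp =>
    rw [map_mul, pderiv_mul, pderiv_mul, map_add, map_mul, map_mul, hp]
    congr 2
    cases o with
    | none =>
      rw [tc_none, map_add, pderiv_C, pderiv_C_mul, pderiv_X_of_ne (by simp), map_zero]
      simp
    | some j =>
      rw [tc_some]
      by_cases h : j = i
      · subst h
        rw [pderiv_X_self, map_one]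
      · rw [pderiv_X_of_ne (by simpa using h), map_zero]

theorem tc_tc (τ ρ τ' ρ' : ℝ) (P : MvPolynomial (Option (Fin m)) ℝ) :
    tc τ ρ (tc τ' ρ' P) = tc (τ' + ρ' * τ) (ρ' * ρ) P := by
  induction P using MvPolynomial.induction_on with
  | C a => rw [tc_C, tc_C, tc_C]
  | add p q hp hq => rw [map_add, map_add, map_add, hp, hq]
  | mul_X p o hp =>
    rw [map_mul, map_mul, map_mul, hp]
    congr 1
    cases o with
    | none =>
      rw [tc_none, tc_none, map_add, map_mul, tc_C, tc_C, tc_none, C_add, C_mul, C_mul]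
      ring
    | some j => rw [tc_some, tc_some, tc_some]

theorem tc_one (P : MvPolynomial (Option (Fin m)) ℝ) : tc 0 1 P = P := by
  induction P using MvPolynomial.induction_on with
  | C a => rw [tc_C]
  | add p q hp hq => rw [map_add, hp, hq]
  | mul_X p o hp =>
    rw [map_mul, hp]
    cases o with
    | none => rw [tc_none]; simp
    | some j => rw [tc_some]

/-! ### The monomials -/

/-- The exponent of a monomial. -/
noncomputable def xpo (α : Ix m E) : Option (Fin m) →₀ ℕ := Finsupp.equivFunOnFinite.symm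
  fun o => (α o : ℕ)

theorem mon_eq (α : Ix m E) : mon α = monomial (xpo α) (1 : ℝ) := by
  rw [mon, monomial_eq, C_1, one_mul, Finsupp.prod_fintype _ _ (fun _ => pow_zero _)]
  rfl

theorem xpo_inj : Function.Injective (xpo (m := m) (E := E)) := by
  intro α β h
  funext o
  have h1 := DFunLike.congr_fun h o
  exact Fin.ext h1

theorem mo_indep (r : Fin (nJ m E) → ℝ) (h : ∑ c, C (r c) * mo c = 0) : r = 0 := by
  classical
  funext c
  have h1 := congrArg (coeff (xpo ((Fintype.equivFin (Jx m E)).symm c).1)) h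
  rw [coeff_sum, coeff_zero] at h1
  rw [Finset.sum_eq_single c] at h1
  · rw [mo, mon_eq, C_mul_monomial, coeff_monomial, if_pos rfl, mul_one] at h1
    exact h1
  · intro b _ hb
    rw [mo, mon_eq, C_mul_monomial, coeff_monomial, if_neg]
    intro h2
    have h3 := xpo_inj h2
    have h4 := Subtype.ext h3
    exact hb ((Fintype.equivFin (Jx m E)).symm.injective h4)
  · intro h2
    exact absurd (mem_univ c) h2

theorem mo_inj {r r' : Fin (nJ m E) → ℝ} (h : ∑ c, C (r c) * mo c = ∑ c, C (r' c) * mo c) :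
    r = r' := by
  have h1 := mo_indep (fun c => r c - r' c) (by
    simp only [C_sub, sub_mul, sum_sub_distrib, h, sub_self])
  funext c
  have := congrFun h1 c
  simp only [Pi.zero_apply] at this
  linarith

theorem cmb_inj {A B : Matrix (Fin (nJ m E)) (Fin (nJ m E)) ℝ}
    (h : ∀ a, cmb A mo a = cmb B mo a) : A = B := by
  ext a b
  exact congrFun (mo_inj (h a)) b

/-- The span of the monomials. -/
def VE (P : MvPolynomial (Option (Fin m)) ℝ) (E : ℕ) : Prop :=
  ∃ r : Fin (nJ m E) → ℝ, P = ∑ c, C (r c) * mo c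

theorem VE_sum {ι : Type*} (s : Finset ι) (P : ι → MvPolynomial (Option (Fin m)) ℝ)
    (h : ∀ i ∈ s, VE (P i) E) : VE (∑ i ∈ s, P i) E := by
  classical
  induction s using Finset.induction_on with
  | empty => exact ⟨0, by simp⟩
  | insert i s hi ih =>
    rw [sum_insert hi]
    obtain ⟨r, hr⟩ := h i (mem_insert_self _ _)
    obtain ⟨r', hr'⟩ := ih fun j hj => h j (mem_insert_of_mem hj)
    refine ⟨fun c => r c + r' c, ?_⟩
    rw [hr, hr']
    simp only [C_add, add_mul, sum_add_distrib]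

theorem VE_mon (α : Ix m E) (hα : ∃ k : Fin m, α (some k) ≠ 0) (a : ℝ) : VE (C a * mon α) E := by
  classical
  have key : ∃ i : Fin (nJ m E), (Fintype.equivFin (Jx m E)).symm i = ⟨α, hα⟩ :=
    ⟨Fintype.equivFin (Jx m E) ⟨α, hα⟩, Equiv.symm_apply_apply _ _⟩
  obtain ⟨i, hi⟩ := key
  refine ⟨Pi.single i a, ?_⟩
  rw [Finset.sum_eq_single i]
  · rw [Pi.single_eq_same, mo, hi]
  · intro b _ hb
    rw [Pi.single_eq_of_ne hb, C_0, zero_mul]
  · intro h
    exact absurd (mem_univ _) h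

theorem VE_tc (τ ρ : ℝ) (b : Fin (nJ m E)) : VE (tc τ ρ (mo b)) E := by
  classical
  obtain ⟨α, hα⟩ := (Fintype.equivFin (Jx m E)).symm b
  have hmo : ∀ (β : Jx m E), VE (tc τ ρ (mon β.1)) E := by
    rintro ⟨α, hα⟩
    show VE (tc τ ρ (mon α)) E
    have h1 : tc τ ρ (mon α) = ∑ j ∈ range ((α none : ℕ) + 1),
        C (τ ^ j * ρ ^ ((α none : ℕ) - j) * ((α none : ℕ).choose j)) *
          (X none ^ ((α none : ℕ) - j) * ∏ i, X (some i) ^ (α (some i) : ℕ)) := by
      rw [mon, Fintype.prod_option, map_mul, map_pow, tc_none, map_prod, add_pow, sum_mul]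
      refine sum_congr rfl fun j _ => ?_
      have h2 : ∀ i : Fin m, tc τ ρ (X (some i) ^ (α (some i) : ℕ)) =
          X (some i) ^ (α (some i) : ℕ) := fun i => by rw [map_pow, tc_some]
      simp only [h2]
      rw [C_mul, C_mul, C_pow, C_pow, mul_pow]
      have h3 : (C (((α none : ℕ).choose j : ℕ) : ℝ) : MvPolynomial (Option (Fin m)) ℝ) =
          (((α none : ℕ).choose j : ℕ) : MvPolynomial (Option (Fin m)) ℝ) := by
        rw [map_natCast]
      rw [h3]
      ring
    rw [h1]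
    refine VE_sum _ _ fun j hj => ?_
    have hlt : (α none : ℕ) - j < E + 1 := lt_of_le_of_lt (Nat.sub_le _ _) (α none).2
    have h4 : (X none ^ ((α none : ℕ) - j) * ∏ i, X (some i) ^ (α (some i) : ℕ) :
        MvPolynomial (Option (Fin m)) ℝ) =
        mon (Function.update α none (⟨(α none : ℕ) - j, hlt⟩ : Fin (E + 1))) := by
      rw [mon, Fintype.prod_option, Function.update_self]
      congr 1
    rw [h4]
    refine VE_mon _ ?_ _
    obtain ⟨k, hk⟩ := hα
    exact ⟨k, by rw [Function.update_of_ne (by simp)]; exact hk⟩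
  exact hmo _

/-! ### The matrix of the change of the time -/

/-- The matrix of the change of the time. -/
noncomputable def RT (E : ℕ) (τ ρ : ℝ) : Matrix (Fin (nJ m E)) (Fin (nJ m E)) ℝ :=
  fun b => (VE_tc (m := m) τ ρ b).choose

theorem RT_spec (τ ρ : ℝ) (b : Fin (nJ m E)) :
    tc τ ρ (mo b) = ∑ c, C (RT E τ ρ b c) * mo c := (VE_tc τ ρ b).choose_spec

theorem cmb_RT (A : Matrix (Fin (nJ m E)) (Fin (nJ m E)) ℝ) (τ ρ : ℝ) (a : Fin (nJ m E)) :
    cmb (A * RT E τ ρ) mo a = tc τ ρ (cmb A mo a) := by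
  rw [cmb, cmb, map_sum]
  have h1 : ∀ b, tc τ ρ (C (A a b) * mo b) = ∑ c, C (A a b * RT E τ ρ b c) * mo c := by
    intro b
    rw [map_mul, tc_C, RT_spec, mul_sum]
    refine sum_congr rfl fun c _ => ?_
    rw [C_mul, mul_assoc]
  simp only [h1]
  rw [sum_comm]
  refine sum_congr rfl fun c _ => ?_
  rw [Matrix.mul_apply, map_sum, sum_mul]

theorem RT_mul (τ ρ τ' ρ' : ℝ) :
    (RT E τ' ρ' * RT E τ ρ : Matrix (Fin (nJ m E)) (Fin (nJ m E)) ℝ) =
      RT E (τ' + ρ' * τ) (ρ' * ρ) := by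
  refine cmb_inj fun a => ?_
  rw [cmb_RT]
  have h1 : ∀ (τ ρ : ℝ), cmb (RT E τ ρ : Matrix (Fin (nJ m E)) (Fin (nJ m E)) ℝ) mo a =
      tc τ ρ (mo a) := fun τ ρ => (RT_spec τ ρ a).symm
  rw [h1, h1, tc_tc]

theorem RT_one : (RT E 0 1 : Matrix (Fin (nJ m E)) (Fin (nJ m E)) ℝ) = 1 := by
  refine cmb_inj fun a => ?_
  have h1 : cmb (RT E 0 1 : Matrix (Fin (nJ m E)) (Fin (nJ m E)) ℝ) mo a = tc 0 1 (mo a) :=
    (RT_spec 0 1 a).symm
  rw [h1, tc_one, cmb]
  rw [Finset.sum_eq_single a]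
  · simp
  · intro b _ hb
    rw [Matrix.one_apply_ne hb.symm, C_0, zero_mul]
  · intro h
    exact absurd (mem_univ _) h

/-- The change of the time for a window. -/
noncomputable def RW (E w t : ℕ) : Matrix (Fin (nJ m E)) (Fin (nJ m E)) ℝ :=
  RT E ((t : ℝ) / 2 ^ w) (1 / 2 ^ w)

/-- The inverse change. -/
noncomputable def RW' (E w t : ℕ) : Matrix (Fin (nJ m E)) (Fin (nJ m E)) ℝ :=
  RT E (-(t : ℝ)) (2 ^ w)

theorem RW_mul (w t : ℕ) : (RW E w t * RW' E w t : Matrix (Fin (nJ m E)) (Fin (nJ m E)) ℝ) = 1 := by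
  rw [RW, RW', RT_mul, ← RT_one]
  congr 1
  · field_simp
    ring
  · field_simp

theorem RW'_mul (w t : ℕ) : (RW' E w t * RW E w t : Matrix (Fin (nJ m E)) (Fin (nJ m E)) ℝ) = 1 := by
  rw [RW, RW', RT_mul, ← RT_one]
  congr 1
  · field_simp
    ring
  · field_simp

theorem RW_isUnit (w t : ℕ) : IsUnit (RW E w t : Matrix (Fin (nJ m E)) (Fin (nJ m E)) ℝ) :=
  ⟨⟨RW E w t, RW' E w t, RW_mul w t, RW'_mul w t⟩, rfl⟩

/-! ### The lines in the time of a window -/

/-- The line in the time of the window. -/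
noncomputable def rl (w t : ℕ) (l : Ln m) : Ln m :=
  (fun k => l.1 k + (t : ℝ) / 2 ^ w * l.2 k, fun k => 1 / 2 ^ w * l.2 k)

/-- The time of the window. -/
noncomputable def wt (w t : ℕ) (s : ℝ) : ℝ := ((t : ℝ) + s) / 2 ^ w

theorem wt_eq (w t : ℕ) (s : ℝ) : (t : ℝ) / 2 ^ w + 1 / 2 ^ w * s = wt w t s := by
  unfold wt
  ring

theorem lpos_rl (w t : ℕ) (l : Ln m) (s : ℝ) : lpos (rl w t l) s = lpos l (wt w t s) := by
  funext k
  unfold lpos rl
  rw [← wt_eq]
  ring

theorem ev_rl (A : Matrix (Fin (nJ m E)) (Fin (nJ m E)) ℝ) (w t : ℕ) (l : Ln m) (s : ℝ)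
    (a : Fin (nJ m E)) :
    ev (cmb (A * RW E w t) mo a) (rl w t l) s = ev (cmb A mo a) l (wt w t s) := by
  unfold ev
  rw [RW, cmb_RT, eval_tc, lpos_rl, wt_eq]

theorem dM_rl (A : Matrix (Fin (nJ m E)) (Fin (nJ m E)) ℝ) (w t : ℕ) (l : Ln m) (s : ℝ) :
    dM (cmb (A * RW E w t) mo) (pnt s (lpos (rl w t l) s)) =
      dM (cmb A mo) (pnt (wt w t s) (lpos l (wt w t s))) := by
  ext a j
  simp only [dM, Matrix.of_apply]
  rw [RW, cmb_RT, pderiv_tc, eval_tc, lpos_rl, wt_eq]

theorem win_eq (w t : ℕ) : Pool.GC.win w t = wt w t '' Set.Icc (0 : ℝ) 1 := by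
  have h2 : (0 : ℝ) < 2 ^ w := by positivity
  ext u
  simp only [Pool.GC.win, Set.mem_Icc, Set.mem_image, wt]
  constructor
  · rintro ⟨h3, h4⟩
    rw [div_le_iff₀ h2] at h3
    rw [le_div_iff₀ h2] at h4
    refine ⟨u * 2 ^ w - t, ⟨by linarith, by linarith⟩, ?_⟩
    field_simp
    ring
  · rintro ⟨s, ⟨h3, h4⟩, rfl⟩
    exact ⟨div_le_div_of_nonneg_right (by linarith) h2.le,
      div_le_div_of_nonneg_right (by linarith) h2.le⟩

/-- The Jacobian in the time of the window. -/
theorem sJ_rl (A : Matrix (Fin (nJ m E)) (Fin (nJ m E)) ℝ) (w t : ℕ) (l : Ln m) :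
    Pool.KNB.sJ (cmb (A * RW E w t) mo) (rl w t l) =
      sSup ((fun s => JF (cmb A mo) (pnt s (lpos l s))) '' Pool.GC.win w t) := by
  rw [win_eq, Set.image_image]
  unfold Pool.KNB.sJ JF
  simp only [dM_rl]

theorem sS_rl (A : Matrix (Fin (nJ m E)) (Fin (nJ m E)) ℝ) (S : Fin m → Fin (nJ m E)) (w t : ℕ)
    (l : Ln m) :
    Pool.KNB.sS (cmb (A * RW E w t) mo) S (rl w t l) =
      sSup ((fun s => |mnr (dM (cmb A mo) (pnt s (lpos l s))) S|) '' Pool.GC.win w t) := by
  rw [win_eq, Set.image_image]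
  unfold Pool.KNB.sS
  simp only [dM_rl]

end Pool.TB
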