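import Pool.Agent.H94.TB.Siz

/-!
# The body of a label from the matrix of its functions
-/

set_option autoImplicit false

namespace Pool.TB

open Finset Real MvPolynomial
open Pool.LAT (Bd Sp exists_body)
open Pool.SH (Ln lpos)
open Pool.GEN (pnt)
open Pool.BJ (Ix mon dM mnr jm JF)
open Pool.KNB (Jx nJ mo cmb ev)
open Pool.GC (phi phl mB FB SJ SS Sm win nod dD Cel scl trn)

variable {m E N : ℕ}

/-! ### Operations on bodies -/

theorem fn_scl (a : ℤ) (B : Bd N) (i : Fin N) (x : Sp N) :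
    (scl a B).fn i x = (2 : ℝ) ^ (-a) * B.fn i x := by
  rw [Bd.fn_apply, Bd.fn_apply]
  show ((2 : ℝ) ^ (B.r i + a))⁻¹ * inner ℝ (B.e i) x = _
  rw [zpow_add₀ (by norm_num), mul_inv, zpow_neg]
  show _ = ((2 : ℝ) ^ a)⁻¹ * (((2 : ℝ) ^ B.r i)⁻¹ * inner ℝ (B.e i) x)
  ring

theorem mem_scl {a : ℤ} {B : Bd N} {κ : ℝ} {x : Sp N} (h : x ∈ B.mul ((2 : ℝ) ^ a * κ)) :
    x ∈ (scl a B).mul κ := by
  rw [Bd.mem_mul_iff] at h ⊢
  intro i
  rw [fn_scl, abs_mul, abs_of_pos (zpow_pos (by norm_num) _), zpow_neg,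
    inv_mul_le_iff₀ (zpow_pos (by norm_num) _)]
  exact h i

theorem of_mem_scl {a : ℤ} {B : Bd N} {κ : ℝ} {x : Sp N} (h : x ∈ (scl a B).mul κ) :
    x ∈ B.mul ((2 : ℝ) ^ a * κ) := by
  rw [Bd.mem_mul_iff] at h ⊢
  intro i
  have h1 := h i
  rw [fn_scl, abs_mul, abs_of_pos (zpow_pos (by norm_num) _), zpow_neg,
    inv_mul_le_iff₀ (zpow_pos (by norm_num) _)] at h1
  exact h1

theorem trn_s_le (top : ℕ) (B : Bd N) (a : Fin N) : (trn top B).s a ≤ B.s a :=
  zpow_le_zpow_right₀ (by norm_num) (min_le_left _ _)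

theorem of_mem_trn {top : ℕ} {B : Bd N} {κ : ℝ} (hκ : 0 ≤ κ) {x : Sp N}
    (h : x ∈ (trn top B).mul κ) : x ∈ B.mul κ := fun a =>
  (h a).trans (mul_le_mul_of_nonneg_left (trn_s_le top B a) hκ)

theorem mem_trn {top : ℕ} {B : Bd N} {κ R : ℝ} {x : Sp N}
    (h : x ∈ B.mul κ) (hx : ‖x‖ ≤ R) : x ∈ (trn top B).mul (max κ (R / 2 ^ top)) := by
  intro a
  have h1 := (trn top B).s_pos a
  rcases le_total (B.r a) top with h2 | h2
  · have h3 : (trn top B).s a = B.s a := by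
      show (2 : ℝ) ^ (min (B.r a) (top : ℤ)) = 2 ^ B.r a
      rw [min_eq_left h2]
    refine (h a).trans ?_
    show κ * B.s a ≤ _ * (trn top B).s a
    rw [h3]
    exact mul_le_mul_of_nonneg_right (le_max_left _ _) (B.s_pos a).le
  · have h3 : (trn top B).s a = 2 ^ top := by
      show (2 : ℝ) ^ (min (B.r a) (top : ℤ)) = 2 ^ top
      rw [min_eq_right h2, zpow_natCast]
    have h4 : |inner ℝ (B.e a) x| ≤ R := by
      refine (abs_real_inner_le_norm _ _).trans ?_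
      rw [B.e.norm_eq_one, one_mul]
      exact hx
    refine h4.trans ?_
    have h5 : R = R / 2 ^ top * 2 ^ top := by field_simp
    show R ≤ _ * (trn top B).s a
    rw [h3]
    conv_lhs => rw [h5]
    exact mul_le_mul_of_nonneg_right (le_max_right _ _) (by positivity)

theorem norm_le_of_mem {top : ℕ} {B : Bd N} (htop : ∀ i, B.r i ≤ top) {x : Sp N}
    (h : x ∈ B.set) : ‖x‖ ≤ N * 2 ^ top := by
  conv_lhs => rw [← B.e.sum_repr' x]
  refine (norm_sum_le _ _).trans ?_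
  have h1 : ∀ a ∈ (univ : Finset (Fin N)), ‖(inner ℝ (B.e a) x) • B.e a‖ ≤ (2 : ℝ) ^ top := by
    intro a _
    rw [norm_smul, B.e.norm_eq_one, mul_one, Real.norm_eq_abs]
    refine (h a).trans ?_
    show (2 : ℝ) ^ B.r a ≤ 2 ^ top
    rw [← zpow_natCast]
    exact zpow_le_zpow_right₀ (by norm_num) (htop a)
  refine (sum_le_sum h1).trans (le_of_eq ?_)
  rw [sum_const, card_univ, Fintype.card_fin, nsmul_eq_mul]

/-! ### The norms -/

/-- The bound for the norms of the monomials. -/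
noncomputable def cR (m E : ℕ) : ℝ := nJ m E * (4 : ℝ) ^ ((m + 1) * E)

theorem phl_norm {l : Ln m} (hl : ∀ i, |l.1 i| ≤ 2 ∧ |l.2 i| ≤ 2) {t : ℝ}
    (ht : t ∈ Set.Icc (0 : ℝ) 1) : ‖phl E l t‖ ≤ cR m E := by
  have h1 : phl E l t = ∑ a, (phl E l t) a • EuclideanSpace.single a (1 : ℝ) := by
    ext b
    simp [Finset.sum_apply, Pi.single_apply]
  have h2 : ∀ a ∈ (univ : Finset (Fin (nJ m E))),
      ‖(phl E l t) a • EuclideanSpace.single a (1 : ℝ)‖ ≤ (4 : ℝ) ^ ((m + 1) * E) := by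
    intro a _
    rw [norm_smul, PiLp.norm_single, norm_one, mul_one, Real.norm_eq_abs]
    show |eval (pnt t (lpos l t)) (mo a)| ≤ _
    rw [mo, Pool.BJ.eval_mon, Pool.BJ.phi, abs_prod]
    have h3 : ∀ o ∈ (univ : Finset (Option (Fin m))),
        |pnt t (lpos l t) o ^ ((((Fintype.equivFin (Jx m E)).symm a).1 o : Fin (E + 1)) : ℕ)| ≤
          (4 : ℝ) ^ E := by
      intro o _
      rw [abs_pow]
      have h4 : |pnt t (lpos l t) o| ≤ 4 := by
        cases o with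
        | none =>
          show |t| ≤ 4
          rw [abs_of_nonneg ht.1]
          linarith [ht.2]
        | some k =>
          show |l.1 k + t * l.2 k| ≤ 4
          refine (abs_add_le _ _).trans ?_
          rw [abs_mul, abs_of_nonneg ht.1]
          have h5 := (hl k).1
          have h6 := (hl k).2
          have h7 : t * |l.2 k| ≤ 1 * 2 := mul_le_mul ht.2 h6 (abs_nonneg _) zero_le_one
          linarith
      refine (pow_le_pow_left₀ (abs_nonneg _) h4 _).trans ?_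
      exact pow_le_pow_right₀ (by norm_num)
        (Nat.lt_succ_iff.mp ((((Fintype.equivFin (Jx m E)).symm a).1 o : Fin (E + 1))).2)
    refine (prod_le_prod (fun o _ => abs_nonneg _) h3).trans (le_of_eq ?_)
    rw [prod_const, card_univ, Fintype.card_option, Fintype.card_fin, ← pow_mul, mul_comm E]
  rw [h1]
  refine (norm_sum_le _ _).trans ((sum_le_sum h2).trans (le_of_eq ?_))
  rw [sum_const, card_univ, Fintype.card_fin, nsmul_eq_mul]
  rfl

/-! ### The body -/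

/-- The exponent of the scaling. -/
noncomputable def eA (N : ℕ) : ℕ := 4 * N + 1

theorem eA_le (N : ℕ) : (4 : ℝ) * N ≤ 2 ^ eA N := by
  have h1 : (4 * N + 1 : ℕ) ≤ 2 ^ (4 * N + 1) := Nat.lt_two_pow_self.le
  have h2 : ((4 * N + 1 : ℕ) : ℝ) ≤ 2 ^ eA N := by exact_mod_cast h1
  push_cast at h2
  linarith

/-- **The body of a matrix.** -/
theorem exists_bod {N : ℕ} (top : ℕ) {G : Matrix (Fin N) (Fin N) ℝ} (hG : IsUnit G) :
    ∃ B : Bd N, (∀ i, B.r i ≤ top) ∧ (∀ x ∈ B.set, ∀ a, |rf G a x| ≤ 2 ^ eA N) ∧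
      ∀ κ R : ℝ, 0 ≤ κ → ∀ x : Sp N, (∀ a, |rf G a x| ≤ κ) → ‖x‖ ≤ R →
        x ∈ B.mul (max (κ / 2) (R / 2 ^ top)) := by
  obtain ⟨B₁, h1, h2⟩ := exists_body (rf G) fun x hx => rf_ker hG hx
  refine ⟨trn top (scl (eA N) B₁), fun i => min_le_right _ _, fun x hx a => ?_,
    fun κ R hκ x hx hR => ?_⟩
  · have h3 : x ∈ B₁.mul ((2 : ℝ) ^ (eA N : ℤ) * 1) := by
      refine of_mem_scl (of_mem_trn (top := top) zero_le_one ?_)
      rw [Bd.mul_one]
      exact hx
    rw [mul_one, zpow_natCast] at h3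
    have h4 : ((2 : ℝ) ^ eA N)⁻¹ • x ∈ B₁.set := by
      have h5 := Bd.smul_mem (c := ((2 : ℝ) ^ eA N)⁻¹) h3
      rw [abs_of_pos (by positivity), inv_mul_cancel₀ (by positivity), Bd.mul_one] at h5
      exact h5
    have h6 := h1 _ h4 a
    rw [map_smul, smul_eq_mul, abs_mul, abs_of_pos (by positivity),
      inv_mul_le_iff₀ (by positivity), mul_one] at h6
    exact h6
  · refine mem_trn (mem_scl ?_) hR
    refine Bd.mul_mono ?_ B₁ (h2 κ hκ x hx)
    have h3 : Real.sqrt (N * Fintype.card (Fin N)) = N := by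
      rw [Fintype.card_fin, Real.sqrt_mul_self (Nat.cast_nonneg _)]
    rw [h3, zpow_natCast]
    have h4 := eA_le N
    nlinarith

/-- The size of the body of a matrix. -/
theorem SF_le_SJ {G : Matrix (Fin (nJ m E)) (Fin (nJ m E)) ℝ} {B : Bd (nJ m E)} {κ : ℝ}
    (hκ : 0 ≤ κ) (h : ∀ x ∈ B.set, ∀ a, |rf G a x| ≤ κ) (w t : ℕ) (l : Ln m) :
    SF (cmb G mo) (win w t) l ≤ (nJ m E * κ) ^ m * SJ B w t l := by
  rw [SJ_eq]
  conv_lhs => rw [exp_mB G B]
  refine SF_mul_le hκ (fun a b => ?_) (isCompact_win w t) l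
  rw [Matrix.of_apply]
  exact h _ (B.ax_mem b) a

end Pool.TB
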