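import Pool.Agent.H94.TB.Lab

/-!
# The labels of the boxes: entropies
-/

set_option autoImplicit false

namespace Pool.TB

open Finset Real
open Pool.Agent.H49.Ent Pool.Agent.H32.Dense Pool.STK Pool.KA
open Pool.KM7 (Psh)
open Pool.FTM (un un_isLaw un_psh CH_un_snd un_pos)
open Pool.TRN (nz)

theorem nz_eq {Ω : Type} (p : Ω → ℝ) (N : ℕ) : nz p N = un N p := by
  funext e
  unfold nz un
  rw [mul_one_div]

/-- The entropy of the points. -/
theorem rhs_eq {Ω ζ Γ : Type} [Fintype Ω] {p : Ω → ℝ} (hp : IsLaw p) (K : ℕ) (t : Ω → ℕ)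
    (Z : Ω → ζ) (Y : Ω × Fin (2 ^ K) → (ℕ × ℕ) × Option Γ) (Y' : Ω × Fin (2 ^ K) → Γ)
    (h : ∀ e, 0 < p e.1 → Y e = ((t e.1, (e.2 : ℕ)), some (Y' e))) :
    CH (nz p (2 ^ K)) Y (fun e => Z e.1) = CH p t Z + K * Real.log 2 +
      CH (un (2 ^ K) p) Y' (fun e => ((e.2 : ℕ), (Z e.1, t e.1))) := by
  rw [nz_eq]
  have hN : 0 < 2 ^ K := Nat.two_pow_pos K
  have hq := un_isLaw hN hp
  have hq0 := hq.nonneg
  have hps : Psh (un (2 ^ K) p) Prod.fst p := un_psh hN p
  have h1 : CH (un (2 ^ K) p) Y (fun e => Z e.1) =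
      CH (un (2 ^ K) p) (fun e => (Y' e, ((e.2 : ℕ), t e.1))) (fun e => Z e.1) := by
    refine CH_congr hq0 ?_ ?_ ?_ ?_
    · intro e e' he he' hee
      have h2 := congrArg Prod.fst hee
      simp only at h2
      rw [h e (un_pos he), h e' (un_pos he')] at h2
      simp only [Prod.mk.injEq, Option.some.injEq] at h2 ⊢
      tauto
    · intro e e' he he' hee
      simp only [Prod.mk.injEq] at hee
      rw [h e (un_pos he), h e' (un_pos he')]
      simp only [Prod.mk.injEq, Option.some.injEq]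
      tauto
    · intro e e' _ _ hee
      exact hee
    · intro e e' _ _ hee
      exact hee
  rw [h1, CH_chain hq0, CH_chain hq0]
  have h2 : CH (un (2 ^ K) p) (fun e => t e.1) (fun e => Z e.1) = CH p t Z := hps.CH_eq t Z
  have h3 : CH (un (2 ^ K) p) (fun e => (e.2 : ℕ)) (fun e => (t e.1, Z e.1)) =
      K * Real.log 2 := by
    have h4 : CH (un (2 ^ K) p) (fun e => (e.2 : ℕ)) (fun e => (t e.1, Z e.1)) =
        CH (un (2 ^ K) p) Prod.snd (fun e => (t e.1, Z e.1)) := by
      refine CH_congr hq0 ?_ ?_ (fun _ _ _ _ h => h) (fun _ _ _ _ h => h)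
      · intro e e' _ _ hee
        exact Fin.ext (congrArg Prod.fst hee)
      · intro e e' _ _ hee
        exact congrArg Fin.val (congrArg Prod.fst hee)
    rw [h4, CH_un_snd hN hp (fun ω => (t ω, Z ω))]
    push_cast
    rw [Real.log_pow]
  have h6 : CH (un (2 ^ K) p) Y' (fun e => (((e.2 : ℕ), t e.1), Z e.1)) =
      CH (un (2 ^ K) p) Y' (fun e => ((e.2 : ℕ), (Z e.1, t e.1))) := by
    refine CH_congr hq0 ?_ ?_ ?_ ?_
    · intro e e' _ _ hee
      exact congrArg Prod.fst hee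
    · intro e e' _ _ hee
      exact congrArg Prod.fst hee
    · intro e e' _ _ hee
      simp only [Prod.mk.injEq] at hee ⊢
      tauto
    · intro e e' _ _ hee
      simp only [Prod.mk.injEq] at hee ⊢
      tauto
  linarith

/-- The entropy of the labels. -/
theorem lhs_le {W ζ κ V : Type} [Fintype W] {q : W → ℝ} (hq : IsLaw q) (t : W → ℕ) (Z : W → ζ)
    (B : W → κ) (s : W → ℤ) (v : W → V) {L : ℝ}
    (hL : ∀ e e', 0 < q e → 0 < q e' → Z e = Z e' → |((s e - s e' : ℤ) : ℝ)| ≤ L)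
    (hv : Det q (fun e => (((Z e, t e), B e), s e)) v) :
    CH q (fun e => (t e, v e)) Z ≤ CH q t Z + CH q B (fun e => (Z e, t e)) +
      Real.log (2 * L + 1) := by
  have hq0 := hq.nonneg
  have h1 : CH q (fun e => (t e, v e)) Z = CH q (fun e => (v e, t e)) Z := by
    refine CH_congr hq0 ?_ ?_ (fun _ _ _ _ h => h) (fun _ _ _ _ h => h)
    · intro e e' _ _ hee
      simp only [Prod.mk.injEq] at hee ⊢
      tauto
    · intro e e' _ _ hee
      simp only [Prod.mk.injEq] at hee ⊢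
      tauto
  have h2 : CH q v (fun e => (t e, Z e)) ≤ CH q (fun e => (s e, B e)) (fun e => (t e, Z e)) := by
    refine CH_mono_left hq0 ?_
    intro e e' he he' hee
    refine hv e e' he he' ?_
    simp only [Prod.mk.injEq] at hee ⊢
    tauto
  have h3 : CH q s (fun e => (B e, (t e, Z e))) ≤ Real.log (2 * L + 1) := by
    have h4 := CH_le_int hq0 hq.sum_one s (fun e => (B e, (t e, Z e))) (fun _ => L)
      (fun e e' he he' hee => hL e e' he he' (by
        simp only [Prod.mk.injEq] at hee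
        exact hee.2.2))
    have h5 : Ex q (fun _ => Real.log (2 * L + 1)) = Real.log (2 * L + 1) := by
      unfold Ex
      rw [← sum_mul, hq.sum_one, one_mul]
    rw [h5] at h4
    exact h4
  have h6 : CH q B (fun e => (t e, Z e)) = CH q B (fun e => (Z e, t e)) := by
    refine CH_congr hq0 ?_ ?_ ?_ ?_
    · intro e e' _ _ hee
      exact congrArg Prod.fst hee
    · intro e e' _ _ hee
      exact congrArg Prod.fst hee
    · intro e e' _ _ hee
      simp only [Prod.mk.injEq] at hee ⊢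
      tauto
    · intro e e' _ _ hee
      simp only [Prod.mk.injEq] at hee ⊢
      tauto
  rw [h1, CH_chain hq0]
  rw [CH_chain hq0 s B] at h2
  linarith

/-- Logarithms are small. -/
theorem ev_log (A B ε : ℝ) (hB : 1 ≤ B) (hε : 0 < ε) : ∃ k₀ : ℕ, ∀ k : ℕ, k₀ ≤ k →
    A + Real.log (B * (k + 1)) ≤ ε * k := by
  have h1 := (Real.isLittleO_log_id_atTop.def (show (0 : ℝ) < ε / 2 by linarith)).natCast_atTop
  obtain ⟨n₁, hn₁⟩ := Filter.eventually_atTop.mp h1
  obtain ⟨n₂, hn₂⟩ := exists_nat_ge ((A + Real.log B + ε / 2) / (ε / 2))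
  refine ⟨max n₁ n₂, fun k hk => ?_⟩
  have h2 := hn₁ (k + 1) (by omega)
  have h3 : (n₂ : ℝ) ≤ k := by exact_mod_cast (le_max_right n₁ n₂).trans hk
  rw [div_le_iff₀ (by linarith)] at hn₂
  have h4 : Real.log (B * (k + 1)) = Real.log B + Real.log (k + 1) :=
    Real.log_mul (by linarith) (by positivity)
  have h5 : Real.log ((k : ℝ) + 1) ≤ ε / 2 * (k + 1) := by
    have h6 := le_trans (le_abs_self _) h2
    rw [id, Real.norm_eq_abs, abs_of_nonneg (Nat.cast_nonneg _)] at h6
    push_cast at h6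
    exact h6
  rw [h4]
  nlinarith

end Pool.TB
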