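import Pool.Agent.H94.TB.Bod

/-!
# The labels of the boxes: geometry

From a matrix `G` with `mB Bh = Q G`, `G = Q' mB Bh`, where `Bh = 2 ^ c₄ C` is a multiple of the body
`C` of the coarse cell: the body of `G` and its relations with `C`.
-/

set_option autoImplicit false

namespace Pool.TB

open Finset Real MvPolynomial
open Pool.LAT (Bd Sp exists_body)
open Pool.SH (Ln lpos)
open Pool.GEN (pnt)
open Pool.BJ (Ix mon dM mnr jm JF)
open Pool.KNB (Jx nJ mo cmb ev)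
open Pool.GC (phi phl mB FB SJ SS Sm win nod dD Cel scl trn)

variable {m E N : ℕ}

/-- The inclusion of the body of `G` in the body of the coarse cell. -/
theorem le_of_Q {c₄ : ℕ} {C B : Bd N} {Q G : Matrix (Fin N) (Fin N) ℝ} {C₀ κ : ℝ} (hC₀ : 0 ≤ C₀)
    (h : mB (scl c₄ C) = Q * G) (hQ : ∀ a b, |Q a b| ≤ C₀)
    (hB : ∀ x ∈ B.set, ∀ a, |rf G a x| ≤ κ) :
    B.le (2 ^ c₄ * (N * C₀ * κ)) C := by
  intro x hx
  have h1 : x ∈ (scl c₄ C).mul (N * C₀ * κ) := by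
    rw [Bd.mem_mul_iff]
    intro a
    rw [← rf_mB, h]
    exact rf_sum_le hC₀ hQ (hB x hx) a
  have h2 := of_mem_scl h1
  rwa [zpow_natCast] at h2

/-- The other inclusion. -/
theorem ge_of_Q' {top c₄ : ℕ} {C B : Bd N} {Q' G : Matrix (Fin N) (Fin N) ℝ} {M : ℝ}
    (hM : 0 ≤ M) (h : G = Q' * mB (scl c₄ C)) (hQ : ∀ a b, |Q' a b| ≤ M)
    (htop : ∀ i, C.r i ≤ top)
    (hB : ∀ κ R : ℝ, 0 ≤ κ → ∀ x : Sp N, (∀ a, |rf G a x| ≤ κ) → ‖x‖ ≤ R →
      x ∈ B.mul (max (κ / 2) (R / 2 ^ top))) :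
    C.le (max (N * M * (2 ^ c₄)⁻¹ / 2) N) B := by
  intro x hx
  have h1 : ∀ a, |rf (mB (scl c₄ C)) a x| ≤ (2 ^ c₄)⁻¹ := by
    intro a
    rw [rf_mB, fn_scl, abs_mul, abs_of_pos (zpow_pos (by norm_num) _), zpow_neg, zpow_natCast]
    have h2 : |C.fn a x| ≤ 1 := by
      rw [← Bd.mul_one] at hx
      exact Bd.mem_mul_iff.mp hx a
    calc ((2 : ℝ) ^ c₄)⁻¹ * |C.fn a x| ≤ (2 ^ c₄)⁻¹ * 1 :=
          mul_le_mul_of_nonneg_left h2 (by positivity)
      _ = (2 ^ c₄)⁻¹ := mul_one _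
  have h3 : ∀ a, |rf G a x| ≤ N * M * (2 ^ c₄)⁻¹ := by
    intro a
    rw [h]
    exact rf_sum_le hM hQ h1 a
  have h4 := hB _ _ (by positivity) x h3 (norm_le_of_mem htop hx)
  refine Bd.mul_mono ?_ B h4
  refine max_le_max le_rfl (le_of_eq ?_)
  field_simp

/-- The label is in the cell. -/
theorem mem_of_Nr {top w t : ℕ} {B : Bd (nJ m E)} {G : Matrix (Fin (nJ m E)) (Fin (nJ m E)) ℝ}
    (htop : 4 * cR m E ≤ 2 ^ top) (ht : t < 2 ^ w)
    (hB : ∀ κ R : ℝ, 0 ≤ κ → ∀ x : Sp (nJ m E), (∀ a, |rf G a x| ≤ κ) → ‖x‖ ≤ R →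
      x ∈ B.mul (max (κ / 2) (R / 2 ^ top)))
    {l l' : Ln m} (hl : ∀ i, |l.1 i| ≤ 2 ∧ |l.2 i| ≤ 2) (hl' : ∀ i, |l'.1 i| ≤ 2 ∧ |l'.2 i| ≤ 2)
    (hN : Pool.KNB.Nr (cmb (G * RW E w t) mo) (rl w t l) (rl w t l')) :
    Cel.mem (⟨B, fun i a => round (B.fn a (phl E l' (nod (dD m E) w t i)))⟩ : Cel m E)
      1 w t l := by
  intro i a
  show |B.fn a (phl E l (nod (dD m E) w t i)) -
    (round (B.fn a (phl E l' (nod (dD m E) w t i))) : ℤ)| ≤ 1
  have hmem := nod_mem (dD m E) w t i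
  obtain ⟨s, hs, hsu⟩ : nod (dD m E) w t i ∈ wt w t '' Set.Icc (0 : ℝ) 1 := by
    rw [← win_eq]
    exact hmem
  have h01 : nod (dD m E) w t i ∈ Set.Icc (0 : ℝ) 1 := by
    have h2 : (0 : ℝ) < 2 ^ w := by positivity
    rw [← hsu]
    unfold wt
    have h3 : (t : ℝ) + 1 ≤ 2 ^ w := by exact_mod_cast ht
    refine ⟨div_nonneg (add_nonneg (Nat.cast_nonneg _) hs.1) h2.le, ?_⟩
    rw [div_le_one h2]
    linarith [hs.2]
  set u := nod (dD m E) w t i
  have h1 : ∀ a, |rf G a (phl E l u - phl E l' u)| ≤ 1 := by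
    intro a
    rw [map_sub, rf_phl, rf_phl, ← hsu, ← ev_rl, ← ev_rl]
    exact hN s hs a
  have h2 : ‖phl E l u - phl E l' u‖ ≤ 2 * cR m E := by
    refine (norm_sub_le _ _).trans ?_
    have h3 := phl_norm (E := E) hl h01
    have h4 := phl_norm (E := E) hl' h01
    linarith
  have h3 := hB 1 _ zero_le_one _ h1 h2
  have h4 : max ((1 : ℝ) / 2) (2 * cR m E / 2 ^ top) ≤ 1 / 2 := by
    refine max_le le_rfl ?_
    rw [div_le_iff₀ (by positivity)]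
    linarith
  have h5 := Bd.mem_mul_iff.mp (Bd.mul_mono h4 B h3) a
  rw [map_sub] at h5
  have h6 := abs_sub_round (B.fn a (phl E l' u))
  have h7 : B.fn a (phl E l u) - (round (B.fn a (phl E l' u)) : ℤ) =
      (B.fn a (phl E l u) - B.fn a (phl E l' u)) +
        (B.fn a (phl E l' u) - (round (B.fn a (phl E l' u)) : ℤ)) := by ring
  rw [h7]
  refine (abs_add_le _ _).trans ?_
  linarith

/-- The cells of the coarse body. -/
theorem Nr_of_mem {g₀ c₄ w t cw ct : ℕ} {C : Cel m E} (hcw : cw ≤ w)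
    (hwin : t / 2 ^ (w - cw) = ct) (hc : cI (dD m E) * (2 * 2 ^ g₀) ≤ 2 ^ c₄) {l l' : Ln m}
    (h : C.mem (2 ^ g₀) cw ct l) (h' : C.mem (2 ^ g₀) cw ct l') :
    Pool.KNB.Nr (cmb (mB (scl c₄ C.B) * RW E w t) mo) (rl w t l) (rl w t l') := by
  intro s hs a
  rw [ev_rl, ev_rl, ← rf_phl, ← rf_phl, rf_mB, fn_scl, fn_scl, ← mul_sub, abs_mul,
    abs_of_pos (zpow_pos (by norm_num) _), zpow_neg, zpow_natCast,
    inv_mul_le_iff₀ (by positivity), mul_one]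
  refine le_trans ?_ hc
  refine nodes_diff C.B (fun i a => ?_) (w := cw) (t := ct) ?_ a
  · have h1 := h i a
    have h2 := h' i a
    have h3 : C.B.fn a (phl E l (nod (dD m E) cw ct i)) -
        C.B.fn a (phl E l' (nod (dD m E) cw ct i)) =
        (C.B.fn a (phl E l (nod (dD m E) cw ct i)) - C.cd i a) -
        (C.B.fn a (phl E l' (nod (dD m E) cw ct i)) - C.cd i a) := by ring
    rw [h3]
    refine (abs_sub _ _).trans ?_
    linarith
  · have h2 : (0 : ℝ) < 2 ^ cw := by positivity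
    have h3 : (0 : ℝ) < 2 ^ (w - cw) := by positivity
    have h4 : (2 : ℝ) ^ w = 2 ^ cw * 2 ^ (w - cw) := by rw [← pow_add]; congr 1; omega
    have h5 : ct * 2 ^ (w - cw) ≤ t := by rw [← hwin]; exact Nat.div_mul_le_self _ _
    have h6 : t < (ct + 1) * 2 ^ (w - cw) := by
      rw [← hwin]
      have := Nat.lt_mul_div_succ t (Nat.two_pow_pos (w - cw))
      rw [mul_comm] at this
      exact this
    have h7 : (ct : ℝ) * 2 ^ (w - cw) ≤ t := by exact_mod_cast h5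
    have h8 : (t : ℝ) + 1 ≤ (ct + 1) * 2 ^ (w - cw) := by exact_mod_cast h6
    unfold wt win
    refine ⟨?_, ?_⟩
    · rw [div_le_div_iff₀ h2 (by positivity), h4]
      calc (ct : ℝ) * (2 ^ cw * 2 ^ (w - cw)) = (ct * 2 ^ (w - cw)) * 2 ^ cw := by ring
        _ ≤ (t + s) * 2 ^ cw := mul_le_mul_of_nonneg_right (by linarith [hs.1]) h2.le
    · rw [div_le_div_iff₀ (by positivity) h2, h4]
      calc ((t : ℝ) + s) * 2 ^ cw ≤ ((ct + 1) * 2 ^ (w - cw)) * 2 ^ cw :=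
            mul_le_mul_of_nonneg_right (by linarith [hs.2]) h2.le
        _ = ((ct : ℝ) + 1) * (2 ^ cw * 2 ^ (w - cw)) := by ring

/-- The maximal minor. -/
theorem Sm_spec {B : Bd (nJ m E)} {w t : ℕ} {l : Ln m} (h : 0 < SJ B w t l) :
    ∃ S, Sm B w t l = some S ∧ SS B w t S l = SJ B w t l := by
  have h1 := exists_SS h
  refine ⟨h1.choose, ?_, h1.choose_spec⟩
  unfold Sm
  rw [dif_pos h1]

/-- The points. -/
theorem ptc_eq (B : Bd (nJ m E)) (S : Fin m → Fin (nJ m E)) (k w t : ℕ) (x : Ln m) (n : ℕ) :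
    Pool.GC.ptc B S k w t x n =
      Pool.KNB.pcl k (cmb (mB B * RW E w t) mo) S (rl w t x) ((n : ℝ) / 2 ^ k) := by
  funext i
  unfold Pool.GC.ptc Pool.KNB.pcl
  rw [ev_rl, ← rf_phl, rf_mB]
  rfl

theorem SS_eq (B : Bd (nJ m E)) (S : Fin m → Fin (nJ m E)) (w t : ℕ) (x : Ln m) :
    Pool.KNB.sS (cmb (mB B * RW E w t) mo) S (rl w t x) = SS B w t S x := sS_rl _ _ _ _ _

theorem SJ_eq' (B : Bd (nJ m E)) (w t : ℕ) (x : Ln m) :
    Pool.KNB.sJ (cmb (mB B * RW E w t) mo) (rl w t x) = SJ B w t x := sJ_rl _ _ _ _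

/-- The sizes are positive. -/
theorem SJ_scl_pos {C : Bd (nJ m E)} {a w t : ℕ} {l : Ln m} (h : 0 < SJ C w t l) :
    0 < SJ (scl a C) w t l := by
  have h1 : (scl a C).le (2 ^ a) C := by
    intro x hx
    have h2 : x ∈ (scl a C).mul 1 := by rw [Bd.mul_one]; exact hx
    have h3 := of_mem_scl h2
    rwa [zpow_natCast, mul_one] at h3
  have h2 := SJ_le_of_le (by positivity) h1 w t l
  by_contra hcon
  push Not at hcon
  have h3 : SJ C w t l ≤ 0 :=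
    h2.trans (mul_nonpos_of_nonneg_of_nonpos (by positivity) hcon)
  linarith

theorem N_le_two_pow (n : ℕ) : (n : ℝ) ≤ 2 ^ n := by exact_mod_cast Nat.lt_two_pow_self.le

/-- Sizes in powers of two. -/
theorem SJ_le_pow {A B : Bd (nJ m E)} {a : ℕ} (h : A.le (2 ^ a) B) (w t : ℕ) (l : Ln m) :
    SJ B w t l ≤ 2 ^ ((nJ m E + a) * m) * SJ A w t l := by
  refine (SJ_le_of_le (by positivity) h w t l).trans ?_
  refine mul_le_mul_of_nonneg_right ?_ (SF_nonneg _ _ _)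
  rw [pow_mul, pow_add]
  exact pow_le_pow_left₀ (by positivity)
    (mul_le_mul_of_nonneg_right (N_le_two_pow _) (by positivity)) _

end Pool.TB
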