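import Pool.Agent.H94.TB.Ent
import Pool.Agent.H15.STP.Inp

/-!
# The boxes of the class from the label theorem
-/

set_option autoImplicit false

namespace Pool.TB

open Finset Real
open Pool.Agent.H49.Ent Pool.Agent.H32.Dense Pool.STK Pool.KA
open Pool.KM7 (Psh)
open Pool.FTM (un un_isLaw un_psh CH_un_snd un_pos)
open Pool.TRN (nz)
open Pool.LAT (Bd Sp)
open Pool.SH (lpos)
open Pool.KNH (Ln)
open Pool.KNB (Jx nJ mo cmb ev BoxUJ Nr sJ sS pcl)
open Pool.STP (BoxUA)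
open Pool.GC (phi phl mB FB SJ SS Sm win nod dD Cel scl trn Vl Cc Par BP dmv bkv capv pYf pU ptc)

variable {m E : ℕ}

/-- The size of the constant of the lower bound. -/
theorem exists_C (m E : ℕ) (C₀ : ℝ) : ∃ C : ℕ, cI (dD m E) * 2 ≤ 2 ^ C ∧
    nJ m E * C₀ * 2 ^ eA (nJ m E) ≤ 2 ^ C ∧ nJ m E * C₀ ≤ 2 ^ C ∧ 4 * cR m E ≤ 2 ^ C := by
  obtain ⟨C, hC⟩ := exists_nat_ge (max (max (cI (dD m E) * 2) (nJ m E * C₀ * 2 ^ eA (nJ m E)))
    (max (nJ m E * C₀) (4 * cR m E)))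
  have h1 := N_le_two_pow C
  exact ⟨C, ((le_max_left _ _).trans (le_max_left _ _)).trans (hC.trans h1),
    ((le_max_right _ _).trans (le_max_left _ _)).trans (hC.trans h1),
    ((le_max_left _ _).trans (le_max_right _ _)).trans (hC.trans h1),
    ((le_max_right _ _).trans (le_max_right _ _)).trans (hC.trans h1)⟩

/-- The bound for the number of the sizes. -/
noncomputable def cz (m E c₃ a₀ cA : ℕ) : ℝ :=
  4 * c₃ + 2 * (nJ m E + a₀) * m + 2 * nJ m E * m + 2 * cA * m + 5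

theorem box_plain {A₂ : ℕ} (hU : BoxUA m E A₂) : ∃ C : ℕ, ∀ (P : Par m E) (b : BP),
    b.g₀ + C ≤ b.c₄ → b.c₄ + C ≤ b.a₀ → b.c₂ + C ≤ b.c₁ → C ≤ b.cA → C ≤ P.top →
    ∀ ε : ℝ, 0 < ε →
    ∃ k₀ : ℕ, ∀ (J w k : ℕ), w ≤ J → k₀ ≤ k → ∀ (F : Fam m J) (z : F.ζ → Cc m E),
    (∀ ω, 0 < F.p ω → dmv P b J w (z (F.Z ω)) k (F.l ω) (F.T ω / 2 ^ (J - w))) →
    ∃ (W : Type) (_ : Fintype W) (p' : W → ℝ) (_ : IsLaw p') (pr : W → F.Ω) (v : W → Vl m E),
      Psh p' pr F.p ∧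
      (∀ e, 0 < p' e →
        bkv P b w (z (F.Z (pr e))) k (F.l (pr e)) (F.T (pr e) / 2 ^ (J - w)) (v e)) ∧
      Ex p' (fun e => capv J (v e)) +
        CH p' (fun e => (F.T (pr e) / 2 ^ (J - w), v e)) (fun e => F.Z (pr e)) ≤
      CH (nz F.p (2 ^ (k - b.c₁))) (fun e => pYf (k - b.c₁) w (scl b.c₄ (z (F.Z e.1)).c.B)
          (F.l e.1) (F.T e.1 / 2 ^ (J - w)) e.2) (fun e => F.Z e.1) -
        Ex F.p (fun ω => pU J (k - b.c₁) w (scl b.c₄ (z (F.Z ω)).c.B) (F.l ω)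
          (F.T ω / 2 ^ (J - w))) + ε * k := by
  classical
  obtain ⟨C₀, hC₀, hU⟩ := hU
  obtain ⟨C, hC1, hC2, hC3, hC4⟩ := exists_C m E C₀
  refine ⟨C + A₂ + nJ m E, fun P b hb1 hb2 hb3 hbA hb4 ε hε => ?_⟩
  obtain ⟨k₁, hk₁⟩ := hU (ε / 2) (half_pos hε)
  set N := nJ m E with hN
  obtain ⟨k₂, hk₂⟩ := ev_log (((N + eA N) * m + 1) * Real.log 2) (cz m E b.c₃ b.a₀ b.cA) (ε / 2)
    (by unfold cz; have h1 : (0 : ℝ) ≤ 4 * b.c₃ + 2 * (nJ m E + b.a₀) * m + 2 * nJ m E * m +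
            2 * b.cA * m :=
          by positivity
        linarith) (half_pos hε)
  refine ⟨max (k₁ + b.c₁) (max k₂ (b.c₂ + N + 1)), ?_⟩
  intro J w k hwJ hk F z hdom
  have hkk₁ : k₁ ≤ k - b.c₁ := by
    have := (le_max_left _ _).trans hk
    omega
  have hkc₁ : b.c₁ ≤ k := by
    have := (le_max_left _ _).trans hk
    omega
  have hkk₂ : k₂ ≤ k := ((le_max_left _ _).trans (le_max_right _ _)).trans hk
  have hkN : b.c₂ + N + 1 ≤ k := ((le_max_right _ _).trans (le_max_right _ _)).trans hk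
  set K := k - b.c₁ with hK
  -- the data
  set tw : F.Ω → ℕ := fun ω => F.T ω / 2 ^ (J - w) with htw
  set Zt : F.Ω → F.ζ × ℕ := fun ω => (F.Z ω, tw ω) with hZt
  set Bh : F.ζ → Bd N := fun q => scl b.c₄ (z q).c.B with hBh
  set A : F.ζ × ℕ → Matrix (Fin N) (Fin N) ℝ := fun q => mB (Bh q.1) * RW E w q.2 with hA
  have hSJ : ∀ ω, 0 < F.p ω → 0 < SJ (z (F.Z ω)).c.B w (tw ω) (F.l ω) := fun ω hω =>
    lt_of_lt_of_le (zpow_pos (by norm_num) _) (hdom ω hω).sz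
  have hSJh : ∀ ω, 0 < F.p ω → 0 < SJ (Bh (F.Z ω)) w (tw ω) (F.l ω) := fun ω hω =>
    SJ_scl_pos (hSJ ω hω)
  obtain ⟨ω₀, hω₀⟩ : ∃ ω, 0 < F.p ω := by
    by_contra hcon
    push Not at hcon
    have h1 : ∑ ω, F.p ω ≤ 0 := sum_nonpos fun ω _ => hcon ω
    rw [F.isLaw.sum_one] at h1
    linarith
  obtain ⟨S₀, -, -⟩ := Sm_spec (hSJh ω₀ hω₀)
  set S : F.Ω → Fin m → Fin N := fun ω => (Sm (Bh (F.Z ω)) w (tw ω) (F.l ω)).getD S₀ with hS
  have hSm : ∀ ω, 0 < F.p ω → Sm (Bh (F.Z ω)) w (tw ω) (F.l ω) = some (S ω) ∧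
      SS (Bh (F.Z ω)) w (tw ω) (S ω) (F.l ω) = SJ (Bh (F.Z ω)) w (tw ω) (F.l ω) := by
    intro ω hω
    obtain ⟨S', h1, h2⟩ := Sm_spec (hSJh ω hω)
    have h3 : S ω = S' := by
      rw [hS]
      simp only [h1, Option.getD_some]
    rw [h3]
    exact ⟨h1, h2⟩
  have hunit : ∀ q, IsUnit (A q) := fun q => (mB_isUnit _).mul (RW_isUnit _ _)
  have hNr : ∀ ω ω', 0 < F.p ω → 0 < F.p ω' → Zt ω = Zt ω' →
      Nr (cmb (A (Zt ω)) mo) (rl w (tw ω) (F.l ω)) (rl w (tw ω') (F.l ω')) := by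
    intro ω ω' hω hω' hq
    have h1 : F.Z ω = F.Z ω' := congrArg Prod.fst hq
    have h2 : tw ω = tw ω' := congrArg Prod.snd hq
    have hd := hdom ω hω
    have hd' := hdom ω' hω'
    rw [← h2]
    refine Nr_of_mem (g₀ := b.g₀) hd.cw hd.win ?_ hd.memc ?_
    · have h3 : (2 : ℝ) ^ (b.g₀ + C) ≤ 2 ^ b.c₄ := pow_le_pow_right₀ (by norm_num) (by omega)
      rw [pow_add] at h3
      calc cI (dD m E) * (2 * 2 ^ b.g₀) = 2 ^ b.g₀ * (cI (dD m E) * 2) := by ring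
        _ ≤ 2 ^ b.g₀ * 2 ^ C := mul_le_mul_of_nonneg_left hC1 (by positivity)
        _ ≤ _ := h3
    · have h4 := hd'.memc
      rw [← h1] at h4
      exact h4
  have hsS : ∀ ω, 0 < F.p ω → sS (cmb (A (Zt ω)) mo) (S ω) (rl w (tw ω) (F.l ω)) =
      SJ (Bh (F.Z ω)) w (tw ω) (F.l ω) := fun ω hω =>
    (SS_eq (Bh (F.Z ω)) (S ω) w (tw ω) (F.l ω)).trans (hSm ω hω).2
  have hsJ : ∀ ω, sJ (cmb (A (Zt ω)) mo) (rl w (tw ω) (F.l ω)) =
      SJ (Bh (F.Z ω)) w (tw ω) (F.l ω) := fun ω => SJ_eq' (Bh (F.Z ω)) w (tw ω) (F.l ω)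
  have hJS : ∀ ω, 0 < F.p ω → sJ (cmb (A (Zt ω)) mo) (rl w (tw ω) (F.l ω)) ≤
      2 * sS (cmb (A (Zt ω)) mo) (S ω) (rl w (tw ω) (F.l ω)) := by
    intro ω hω
    rw [hsS ω hω, hsJ]
    have := hSJh ω hω
    linarith
  obtain ⟨W, iW, p', pr, κ₁, Bl, A', hp', hps, hQ, hN', hent⟩ := hk₁ K hkk₁ F.Ω (F.ζ × ℕ) F.fin
    F.p F.isLaw (fun ω => rl w (tw ω) (F.l ω)) Zt A S hunit hNr hJS
  have hpos : ∀ e, 0 < p' e → 0 < F.p (pr e) := fun e he => hps.pos hp'.nonneg he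
  -- the matrices
  set G : (F.ζ × ℕ) × κ₁ → Matrix (Fin N) (Fin N) ℝ := fun q => A' q.1 q.2 * RW' E w q.1.2 with hG
  set ky : W → (F.ζ × ℕ) × κ₁ := fun e => (Zt (pr e), Bl e) with hky
  have hGR : ∀ e, A' (Zt (pr e)) (Bl e) = G (ky e) * RW E w (tw (pr e)) := by
    intro e
    show _ = A' (Zt (pr e)) (Bl e) * RW' E w (tw (pr e)) * RW E w (tw (pr e))
    rw [Matrix.mul_assoc, RW'_mul, Matrix.mul_one]
  have hGu : ∀ e, 0 < p' e → IsUnit (G (ky e)) := by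
    intro e he
    obtain ⟨Q, Q', -, -, h3, -⟩ := hQ e he
    have h4 := hunit (Zt (pr e))
    rw [h3, Matrix.isUnit_iff_isUnit_det, Matrix.det_mul] at h4
    have h5 := isUnit_of_mul_isUnit_right h4
    rw [← Matrix.isUnit_iff_isUnit_det] at h5
    exact h5.mul ⟨⟨RW' E w (tw (pr e)), RW E w (tw (pr e)), RW'_mul _ _, RW_mul _ _⟩, rfl⟩
  have hmBQ : ∀ e, 0 < p' e → ∃ Q : Matrix (Fin N) (Fin N) ℝ,
      mB (Bh (F.Z (pr e))) = Q * G (ky e) ∧ ∀ a c, |Q a c| ≤ C₀ := by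
    intro e he
    obtain ⟨Q, Q', -, -, h3, h4⟩ := hQ e he
    refine ⟨Q, ?_, h4⟩
    have h5 : mB (Bh (F.Z (pr e))) = A (Zt (pr e)) * RW' E w (tw (pr e)) := by
      show _ = mB (Bh (F.Z (pr e))) * RW E w (tw (pr e)) * RW' E w (tw (pr e))
      rw [Matrix.mul_assoc, RW_mul, Matrix.mul_one]
    rw [h5, h3, Matrix.mul_assoc]
  have hmBQ' : ∀ e, 0 < p' e → ∃ Q' : Matrix (Fin N) (Fin N) ℝ,
      G (ky e) = Q' * mB (Bh (F.Z (pr e))) ∧ ∀ a c, |Q' a c| ≤ C₀ * 2 ^ (A₂ * K) := by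
    intro e he
    obtain ⟨Q, Q', h1, h2, -, -⟩ := hQ e he
    refine ⟨Q', ?_, h2⟩
    show A' (Zt (pr e)) (Bl e) * RW' E w (tw (pr e)) = _
    rw [h1]
    show Q' * (mB (Bh (F.Z (pr e))) * RW E w (tw (pr e))) * RW' E w (tw (pr e)) = _
    rw [Matrix.mul_assoc, Matrix.mul_assoc, RW_mul, Matrix.mul_one]
  -- the bodies
  have hbod : ∀ q, ∃ B : Bd N, IsUnit (G q) → (∀ i, B.r i ≤ P.top) ∧
      (∀ x ∈ B.set, ∀ a, |rf (G q) a x| ≤ 2 ^ eA N) ∧
      ∀ κ R : ℝ, 0 ≤ κ → ∀ x : Sp N, (∀ a, |rf (G q) a x| ≤ κ) → ‖x‖ ≤ R →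
        x ∈ B.mul (max (κ / 2) (R / 2 ^ P.top)) := by
    intro q
    by_cases h : IsUnit (G q)
    · obtain ⟨B, hB⟩ := exists_bod P.top h
      exact ⟨B, fun _ => hB⟩
    · exact ⟨Bh q.1.1, fun h' => absurd h' h⟩
  choose bod hbod using hbod
  have hbd : ∀ e, 0 < p' e → (∀ i, (bod (ky e)).r i ≤ P.top) ∧
      (∀ x ∈ (bod (ky e)).set, ∀ a, |rf (G (ky e)) a x| ≤ 2 ^ eA N) ∧
      ∀ κ R : ℝ, 0 ≤ κ → ∀ x : Sp N, (∀ a, |rf (G (ky e)) a x| ≤ κ) → ‖x‖ ≤ R →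
        x ∈ (bod (ky e)).mul (max (κ / 2) (R / 2 ^ P.top)) := fun e he => hbod _ (hGu e he)
  -- the reference lines
  have hrx : ∀ q, ∃ x : Ln m, ∀ e, 0 < p' e → ky e = q → ∃ e', 0 < p' e' ∧ ky e' = q ∧
      F.l (pr e') = x := by
    intro q
    by_cases h : ∃ e, 0 < p' e ∧ ky e = q
    · obtain ⟨e, he, heq⟩ := h
      exact ⟨F.l (pr e), fun _ _ _ => ⟨e, he, heq, rfl⟩⟩
    · exact ⟨0, fun e he heq => absurd ⟨e, he, heq⟩ h⟩
  choose rx hrx using hrx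
  set cel : (F.ζ × ℕ) × κ₁ → Cel m E := fun q => ⟨bod q, fun i a =>
    round ((bod q).fn a (phl E (rx q) (nod (dD m E) w q.1.2 i)))⟩ with hcel
  set sz : W → ℤ := fun e => Int.log 2 (SJ (bod (ky e)) w (tw (pr e)) (F.l (pr e))) with hsz
  -- the inclusions
  have hle : ∀ e, 0 < p' e → (bod (ky e)).le (2 ^ b.a₀) (z (F.Z (pr e))).c.B := by
    intro e he
    obtain ⟨Q, h1, h2⟩ := hmBQ e he
    refine (le_of_Q hC₀.le h1 h2 (hbd e he).2.1).mono ?_
    calc (2 : ℝ) ^ b.c₄ * (N * C₀ * 2 ^ eA N) ≤ 2 ^ b.c₄ * 2 ^ C :=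
          mul_le_mul_of_nonneg_left hC2 (by positivity)
      _ = 2 ^ (b.c₄ + C) := (pow_add _ _ _).symm
      _ ≤ 2 ^ b.a₀ := pow_le_pow_right₀ (by norm_num) (by omega)
  have hAk : C + N + A₂ * K ≤ b.cA * k := by
    have h1 : A₂ * K ≤ A₂ * k := Nat.mul_le_mul_left _ (Nat.sub_le _ _)
    have h2 : C + N ≤ (C + N) * k := Nat.le_mul_of_pos_right _ (by omega)
    have h3 : (C + N + A₂) * k ≤ b.cA * k := Nat.mul_le_mul_right _ (by omega)
    have h4 : (C + N + A₂) * k = (C + N) * k + A₂ * k := Nat.add_mul _ _ _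
    omega
  have hge : ∀ e, 0 < p' e → (z (F.Z (pr e))).c.B.le (2 ^ (b.cA * k)) (bod (ky e)) := by
    intro e he
    obtain ⟨Q', h1, h2⟩ := hmBQ' e he
    refine (ge_of_Q' (by positivity) h1 h2 (hdom _ (hpos e he)).topc (hbd e he).2.2).mono ?_
    refine max_le ?_ ?_
    · have h5 : ((2 : ℝ) ^ b.c₄)⁻¹ ≤ 1 := inv_le_one_of_one_le₀ (one_le_pow₀ (by norm_num))
      have h6 : (0 : ℝ) ≤ N * (C₀ * 2 ^ (A₂ * K)) := by positivity
      calc N * (C₀ * 2 ^ (A₂ * K)) * ((2 : ℝ) ^ b.c₄)⁻¹ / 2 ≤ N * (C₀ * 2 ^ (A₂ * K)) * 1 / 1 := by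
            refine div_le_div₀ (by positivity) (mul_le_mul_of_nonneg_left h5 h6) one_pos
              (by norm_num)
        _ = N * C₀ * 2 ^ (A₂ * K) := by ring
        _ ≤ 2 ^ C * 2 ^ (A₂ * K) := mul_le_mul_of_nonneg_right hC3 (by positivity)
        _ = 2 ^ (C + A₂ * K) := (pow_add _ _ _).symm
        _ ≤ 2 ^ (b.cA * k) := pow_le_pow_right₀ (by norm_num) (by omega)
    · refine (N_le_two_pow N).trans (pow_le_pow_right₀ (by norm_num) (by omega))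
  -- the sizes
  have hpos' : ∀ e, 0 < p' e → 0 < SJ (bod (ky e)) w (tw (pr e)) (F.l (pr e)) := by
    intro e he
    have h1 := SJ_le_pow (hle e he) w (tw (pr e)) (F.l (pr e))
    by_contra hcon
    push Not at hcon
    have h2 := hSJ _ (hpos e he)
    have h3 := h1.trans (mul_nonpos_of_nonneg_of_nonpos (by positivity) hcon)
    linarith
  have hsz1 : ∀ e, 0 < p' e → (2 : ℝ) ^ sz e ≤ SJ (bod (ky e)) w (tw (pr e)) (F.l (pr e)) :=
    fun e he => by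
      have := Int.zpow_log_le_self (b := 2) (R := ℝ) (by norm_num) (hpos' e he)
      exact_mod_cast this
  have hsz2 : ∀ e, SJ (bod (ky e)) w (tw (pr e)) (F.l (pr e)) < 2 ^ (sz e + 1) :=
    fun e => by
      have := Int.lt_zpow_succ_log_self (b := 2) (R := ℝ) (by norm_num)
        (SJ (bod (ky e)) w (tw (pr e)) (F.l (pr e)))
      exact_mod_cast this
  have hlo : ∀ e, 0 < p' e → (z (F.Z (pr e))).sz - b.c₃ * k - (N + b.a₀) * m - 1 < sz e + 1 := by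
    intro e he
    have h1 := (hdom _ (hpos e he)).sz
    have h2 := SJ_le_pow (hle e he) w (tw (pr e)) (F.l (pr e))
    have h3 : (2 : ℝ) ^ ((z (F.Z (pr e))).sz - b.c₃ * k) <
        2 ^ ((N + b.a₀) * m) * 2 ^ (sz e + 1) :=
      lt_of_le_of_lt (h1.trans h2) (mul_lt_mul_of_pos_left (hsz2 e) (by positivity))
    rw [← zpow_natCast, ← zpow_add₀ (by norm_num)] at h3
    have h4 := (zpow_lt_zpow_iff_right₀ (by norm_num : (1 : ℝ) < 2)).mp h3
    push_cast at h4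
    linarith
  have hhi : ∀ e, 0 < p' e → sz e ≤ (z (F.Z (pr e))).sz + b.c₃ * k + (N + b.cA * k) * m := by
    intro e he
    have h1 := (hdom _ (hpos e he)).sz'
    have h2 := SJ_le_pow (hge e he) w (tw (pr e)) (F.l (pr e))
    have h3 : (2 : ℝ) ^ sz e ≤
        2 ^ ((N + b.cA * k) * m) * 2 ^ ((z (F.Z (pr e))).sz + b.c₃ * k) :=
      ((hsz1 e he).trans h2).trans (mul_le_mul_of_nonneg_left h1 (by positivity))
    rw [← zpow_natCast, ← zpow_add₀ (by norm_num)] at h3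
    have h4 := (zpow_le_zpow_iff_right₀ (by norm_num : (1 : ℝ) < 2)).mp h3
    push_cast at h4
    linarith
  set L : ℝ := 2 * b.c₃ * k + (N + b.a₀) * m + 2 + (N + b.cA * k) * m with hL
  have hLz : ∀ e e', 0 < p' e → 0 < p' e' → F.Z (pr e) = F.Z (pr e') →
      |((sz e - sz e' : ℤ) : ℝ)| ≤ L := by
    intro e e' he he' hee
    have h1 := hlo e he
    have h2 := hhi e he
    have h3 := hlo e' he'
    have h4 := hhi e' he'
    rw [← hee] at h3 h4
    have h5 : |sz e - sz e'| ≤ 2 * b.c₃ * k + (N + b.a₀) * m + 2 + (N + b.cA * k) * m := by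
      rw [abs_le]
      constructor <;> linarith
    have h6 : ((|sz e - sz e'| : ℤ) : ℝ) ≤
        ((2 * b.c₃ * k + (N + b.a₀) * m + 2 + (N + b.cA * k) * m : ℤ) : ℝ) := by exact_mod_cast h5
    rw [Int.cast_abs] at h6
    rw [hL]
    push_cast at h6 ⊢
    exact h6
  -- the labels
  set v : W → Vl m E := fun e => ⟨cel (ky e), 0, 0, sz e⟩ with hv
  refine ⟨W, iW, p', hp', pr, v, hps, fun e he => ?_, ?_⟩
  · obtain ⟨e', he', hky', hrx'⟩ := hrx (ky e) e he rfl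
    have hZ' : Zt (pr e') = Zt (pr e) := congrArg Prod.fst hky'
    have hB' : Bl e' = Bl e := congrArg Prod.snd hky'
    have hd := hdom _ (hpos e he)
    have hd' := hdom _ (hpos e' he')
    refine { al := rfl, sb := rfl, mem := ?_, le := hle e he, ge := hge e he,
             top := (hbd e he).1, sz := hsz1 e he, sz' := hsz2 e }
    show (cel (ky e)).mem 1 w (tw (pr e)) (F.l (pr e))
    have h1 := hN' e e' he he' hZ'.symm hB'.symm
    rw [hGR e] at h1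
    have h2 : tw (pr e') = tw (pr e) := congrArg Prod.snd hZ'
    simp only [h2] at h1
    have h3 := mem_of_Nr (top := P.top) (w := w) (t := tw (pr e)) (B := bod (ky e))
      (G := G (ky e)) ?_ hd.tlt (hbd e he).2.2 hd.box hd'.box h1
    · rw [hrx'] at h3
      exact h3
    · exact hC4.trans (pow_le_pow_right₀ (by norm_num) (by omega))
  · -- the entropies
    have hR := rhs_eq F.isLaw K tw F.Z
      (fun e => pYf K w (scl b.c₄ (z (F.Z e.1)).c.B) (F.l e.1) (F.T e.1 / 2 ^ (J - w)) e.2)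
      (fun e => (S e.1, pcl K (cmb (A (Zt e.1)) mo) (S e.1) (rl w (tw e.1) (F.l e.1))
        ((e.2 : ℕ) / 2 ^ K))) (fun e he => by
          have h1 := (hSm e.1 he).1
          show ((tw e.1, (e.2 : ℕ)), (Sm (Bh (F.Z e.1)) w (tw e.1) (F.l e.1)).map fun S =>
            (S, ptc (Bh (F.Z e.1)) S K w (tw e.1) (F.l e.1) e.2)) = _
          rw [h1, Option.map_some, ptc_eq])
    have hLe := lhs_le hp' (fun e => tw (pr e)) (fun e => F.Z (pr e)) Bl sz v hLz (by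
      intro e e' he he' hee
      simp only [Prod.mk.injEq] at hee
      obtain ⟨⟨⟨h1, h2⟩, h3⟩, h4⟩ := hee
      have h5 : ky e = ky e' := by
        show ((F.Z (pr e), tw (pr e)), Bl e) = ((F.Z (pr e'), tw (pr e')), Bl e')
        rw [h1, h2, h3]
      show (⟨cel (ky e), 0, 0, sz e⟩ : Vl m E) = ⟨cel (ky e'), 0, 0, sz e'⟩
      rw [h5, h4])
    have hT : CH p' (fun e => tw (pr e)) (fun e => F.Z (pr e)) = CH F.p tw F.Z := hps.CH_eq tw F.Z
    -- the capacity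
    have hcap : Ex p' (fun e => capv J (v e)) ≤
        Ex p' (fun e => -Real.log (sJ (cmb (A' (Zt (pr e)) (Bl e)) mo)
          (rl w (tw (pr e)) (F.l (pr e))))) + ((m : ℝ) * J * Real.log 2 +
            ((N + eA N) * m + 1) * Real.log 2) := by
      rw [← Pool.KNH.Ex_add_const hp']
      refine Pool.KNH.Ex_mono hp'.nonneg fun e he => ?_
      show ((m : ℝ) * J - (sz e : ℤ) + m * ((0 : ℕ) : ℝ)) * Real.log 2 ≤ _
      have h1 : sJ (cmb (A' (Zt (pr e)) (Bl e)) mo) (rl w (tw (pr e)) (F.l (pr e))) =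
          SF (cmb (G (ky e)) mo) (win w (tw (pr e))) (F.l (pr e)) := by
        rw [hGR e]
        exact sJ_rl _ _ _ _
      have h2 : 0 < SF (cmb (G (ky e)) mo) (win w (tw (pr e))) (F.l (pr e)) := by
        obtain ⟨Q, h3, h4⟩ := hmBQ e he
        have h5 := hSJh _ (hpos e he)
        rw [SJ_eq, h3] at h5
        have h6 := SF_mul_le (G := G (ky e)) hC₀.le h4 (isCompact_win w (tw (pr e))) (F.l (pr e))
        by_contra hcon
        push Not at hcon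
        have h7 := h6.trans (mul_nonpos_of_nonneg_of_nonpos (by positivity) hcon)
        linarith
      have h3 : SF (cmb (G (ky e)) mo) (win w (tw (pr e))) (F.l (pr e)) ≤
          2 ^ ((N + eA N) * m) * 2 ^ (sz e + 1) := by
        refine (SF_le_SJ (by positivity) (hbd e he).2.1 w (tw (pr e)) (F.l (pr e))).trans ?_
        refine mul_le_mul ?_ (hsz2 e).le (SF_nonneg _ _ _) (by positivity)
        rw [pow_mul, pow_add]
        exact pow_le_pow_left₀ (by positivity)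
          (mul_le_mul_of_nonneg_right (N_le_two_pow _) (by positivity)) _
      have h4 := Real.log_le_log h2 h3
      rw [Real.log_mul (by positivity) (by positivity), Real.log_pow, Real.log_zpow] at h4
      rw [h1]
      push_cast at h4 ⊢
      linarith
    -- the sizes of the points
    have hpU : Ex F.p (fun ω => pU J K w (scl b.c₄ (z (F.Z ω)).c.B) (F.l ω)
        (F.T ω / 2 ^ (J - w))) = ((K : ℝ) + m * K - m * J) * Real.log 2 +
          Ex F.p (fun ω => Real.log (sS (cmb (A (Zt ω)) mo) (S ω) (rl w (tw ω) (F.l ω)))) := by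
      rw [add_comm, ← Pool.KNH.Ex_add_const F.isLaw]
      refine Pool.TRN.Ex_congr F.isLaw.nonneg fun ω hω => ?_
      rw [hsS ω hω, add_comm]
      rfl
    have hlog := hk₂ k hkk₂
    have hLk : Real.log (2 * L + 1) ≤ Real.log (cz m E b.c₃ b.a₀ b.cA * (k + 1)) := by
      refine Real.log_le_log ?_ ?_
      · rw [hL]
        positivity
      · rw [hL]
        unfold cz
        rw [← hN]
        have h1 : (0 : ℝ) ≤ (N : ℝ) * m * k := by positivity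
        have h2 : (0 : ℝ) ≤ (b.a₀ : ℝ) * m * k := by positivity
        have h3 : (0 : ℝ) ≤ (b.c₃ : ℝ) := by positivity
        have h4 : (0 : ℝ) ≤ (k : ℝ) := by positivity
        have h5 : (0 : ℝ) ≤ (m : ℝ) := by positivity
        have h6 : (0 : ℝ) ≤ (b.cA : ℝ) * m := by positivity
        nlinarith
    have hK' : (ε / 2) * (K : ℝ) ≤ ε / 2 * k := by
      refine mul_le_mul_of_nonneg_left ?_ (half_pos hε).le
      exact_mod_cast Nat.sub_le _ _
    rw [hR, hpU]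
    rw [hT] at hLe
    have hent' : CH p' Bl (fun e => (F.Z (pr e), tw (pr e))) +
        Ex p' (fun e => -Real.log (sJ (cmb (A' (Zt (pr e)) (Bl e)) mo)
          (rl w (tw (pr e)) (F.l (pr e))))) ≤
        CH (un (2 ^ K) F.p) (fun e => (S e.1, pcl K (cmb (A (Zt e.1)) mo) (S e.1)
          (rl w (tw e.1) (F.l e.1)) ((e.2 : ℕ) / 2 ^ K)))
          (fun e => ((e.2 : ℕ), (F.Z e.1, tw e.1))) - m * (K * Real.log 2) -
          Ex F.p (fun ω => Real.log (sS (cmb (A (Zt ω)) mo) (S ω) (rl w (tw ω) (F.l ω)))) +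
          ε / 2 * K := hent
    have e1 : ((K : ℝ) + m * K - m * J) * Real.log 2 =
      K * Real.log 2 + m * (K * Real.log 2) - m * J * Real.log 2 := by ring
    rw [e1]
    have hLe' : CH p' (fun e => (F.T (pr e) / 2 ^ (J - w), v e)) (fun e => F.Z (pr e)) ≤
      CH F.p tw F.Z + CH p' Bl (fun e => (F.Z (pr e), tw (pr e))) + Real.log (2 * L + 1) := hLe
    linarith

/-- **(T3)** The boxes of the class. -/
theorem tdBoxA {A₂ : ℕ} (hU : BoxUA m E A₂) : Pool.GC.TdBoxStmt m E := by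
  obtain ⟨C, h⟩ := box_plain hU
  exact ⟨C, fun P b κ h1 h2 h3 h4 h5 ε hε => h P b h1 h2 h3 h4 h5 ε hε⟩

/-- The theorem with labels of thickness `2 ^ (-k)`. -/
theorem boxUA_one (hU : BoxUJ m E) : BoxUA m E 1 := by
  simpa only [BoxUA, BoxUJ, one_mul] using hU

/-- **(T3)** The boxes of the class, from the theorem with labels of thickness `2 ^ (-k)`. -/
theorem tdBox (hU : BoxUJ m E) : Pool.GC.TdBoxStmt m E :=
  tdBoxA (boxUA_one hU)

end Pool.TB
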