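import Pool.Agent.H94.TB.Time

/-!
# Linear forms, sizes and nodes

* the linear forms of a matrix, and their expansion in a body;
* the Jacobian along a line: comparison, and the maximal minor;
* a polynomial which is small at the nodes of a window is small in the window.
-/

set_option autoImplicit false

namespace Pool.TB

open Finset Real MvPolynomial
open Pool.LAT (Bd Sp)
open Pool.SH (Ln lpos)
open Pool.GEN (pnt)
open Pool.BJ (Ix mon dM mnr jm JF jm_nonneg le_jm jm_le exists_jm JF_mul_le)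
open Pool.KNB (Jx nJ mo cmb ev)
open Pool.GC (phi phl mB FB SJ SS Sm win nod dD Cel)

variable {m E : ℕ}

/-! ### Linear forms -/

section forms

variable {N : ℕ}

/-- The linear forms of a matrix. -/
noncomputable def rf (G : Matrix (Fin N) (Fin N) ℝ) (a : Fin N) : Sp N →ₗ[ℝ] ℝ where
  toFun v := ∑ b, G a b * v b
  map_add' x y := by
    rw [← sum_add_distrib]
    exact sum_congr rfl fun b _ => by rw [PiLp.add_apply]; ring
  map_smul' c x := by
    rw [RingHom.id_apply, smul_eq_mul, mul_sum]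
    exact sum_congr rfl fun b _ => by rw [PiLp.smul_apply, smul_eq_mul]; ring

theorem rf_apply (G : Matrix (Fin N) (Fin N) ℝ) (a : Fin N) (v : Sp N) :
    rf G a v = ∑ b, G a b * v b := rfl

theorem rf_mB (B : Bd N) (a : Fin N) : rf (mB B) a = B.fn a := by
  ext v
  rw [rf_apply, Bd.fn_apply, PiLp.inner_apply, mul_sum]
  refine sum_congr rfl fun b _ => ?_
  simp only [mB, Matrix.of_apply, RCLike.inner_apply, conj_trivial]
  ring

theorem rf_mul (Q G : Matrix (Fin N) (Fin N) ℝ) (a : Fin N) (v : Sp N) :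
    rf (Q * G) a v = ∑ b, Q a b * rf G b v := by
  simp only [rf_apply, Matrix.mul_apply, sum_mul, mul_sum]
  rw [sum_comm]
  exact sum_congr rfl fun b _ => sum_congr rfl fun c _ => by ring

theorem rf_inj {G G' : Matrix (Fin N) (Fin N) ℝ} (h : ∀ a v, rf G a v = rf G' a v) : G = G' := by
  ext a c
  have h1 := h a (EuclideanSpace.single c 1)
  rw [rf_apply, rf_apply] at h1
  simpa using h1

theorem rf_ker {G : Matrix (Fin N) (Fin N) ℝ} (hG : IsUnit G) {v : Sp N}
    (h : ∀ a, rf G a v = 0) : v = 0 := by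
  obtain ⟨u, rfl⟩ := hG
  have h1 : ∀ a, rf (1 : Matrix (Fin N) (Fin N) ℝ) a v = 0 := by
    intro a
    rw [← u.inv_mul, rf_mul]
    exact sum_eq_zero fun b _ => by rw [h, mul_zero]
  ext a
  have h2 := h1 a
  rw [rf_apply] at h2
  simpa [Matrix.one_apply] using h2

theorem rf_sum_le {Q G : Matrix (Fin N) (Fin N) ℝ} {κ M : ℝ} (hκ : 0 ≤ κ)
    (hQ : ∀ a b, |Q a b| ≤ κ) {v : Sp N} (h : ∀ a, |rf G a v| ≤ M) (a : Fin N) :
    |rf (Q * G) a v| ≤ N * κ * M := by
  rw [rf_mul]
  refine (abs_sum_le_sum_abs _ _).trans ?_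
  have h1 : ∀ b ∈ univ, |Q a b * rf G b v| ≤ κ * M := fun b _ => by
    rw [abs_mul]
    exact mul_le_mul (hQ a b) (h b) (abs_nonneg _) hκ
  refine (sum_le_sum h1).trans (le_of_eq ?_)
  rw [sum_const, card_univ, Fintype.card_fin, nsmul_eq_mul]
  ring

/-- The expansion of a matrix in a body. -/
theorem exp_mB (G : Matrix (Fin N) (Fin N) ℝ) (B : Bd N) :
    G = Matrix.of (fun a b => rf G a (B.s b • B.e b)) * mB B := by
  refine rf_inj fun a v => ?_
  rw [rf_mul]
  conv_lhs => rw [B.expand v]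
  rw [map_sum]
  refine sum_congr rfl fun b _ => ?_
  rw [map_smul, rf_mB, Bd.fn_apply, Matrix.of_apply, smul_eq_mul, div_eq_inv_mul]
  ring

theorem mB_isUnit (B : Bd N) : IsUnit (mB B) := by
  have h1 := exp_mB (1 : Matrix (Fin N) (Fin N) ℝ) B
  exact ⟨⟨mB B, _, mul_eq_one_comm.mp h1.symm, h1.symm⟩, rfl⟩

end forms

/-! ### Functions -/

theorem rf_phl (G : Matrix (Fin (nJ m E)) (Fin (nJ m E)) ℝ) (a : Fin (nJ m E)) (l : Ln m)
    (t : ℝ) : rf G a (phl E l t) = ev (cmb G mo a) l t := by
  rw [rf_apply, ev, cmb, map_sum]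
  refine sum_congr rfl fun b _ => ?_
  rw [map_mul, eval_C]
  rfl

theorem cmb_mul (Q G : Matrix (Fin (nJ m E)) (Fin (nJ m E)) ℝ) (a : Fin (nJ m E)) :
    cmb (Q * G) mo a = ∑ b, C (Q a b) * cmb G mo b := by
  simp only [cmb, Matrix.mul_apply, map_sum, sum_mul, mul_sum]
  rw [sum_comm]
  exact sum_congr rfl fun b _ => sum_congr rfl fun c _ => by rw [C_mul]; ring

/-! ### Sizes -/

/-- The Jacobian along a line, at the times in `I`. -/
noncomputable def SF (F : Fin (nJ m E) → MvPolynomial (Option (Fin m)) ℝ) (I : Set ℝ)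
    (l : Ln m) : ℝ := sSup ((fun s => JF F (pnt s (lpos l s))) '' I)

theorem SJ_eq (B : Bd (nJ m E)) (w t : ℕ) (l : Ln m) : SJ B w t l = SF (cmb (mB B) mo) (win w t) l :=
  rfl

theorem cont_mnr {N : ℕ} (F : Fin N → MvPolynomial (Option (Fin m)) ℝ) (l : Ln m)
    (S : Fin m → Fin N) : Continuous fun s => mnr (dM F (pnt s (lpos l s))) S := by
  unfold mnr dM
  refine Continuous.matrix_det ?_
  refine continuous_matrix fun i j => ?_
  simp only [Matrix.of_apply]
  refine (MvPolynomial.continuous_eval _).comp ?_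
  refine continuous_pi fun o => ?_
  cases o with
  | none => exact continuous_id
  | some k =>
    simp only [pnt, lpos]
    fun_prop

theorem isCompact_win (w t : ℕ) : IsCompact (win w t) := isCompact_Icc

theorem win_nonempty (w t : ℕ) : (win w t).Nonempty := by
  rw [win_eq]
  exact ⟨_, Set.mem_image_of_mem _ (Set.left_mem_Icc.mpr zero_le_one)⟩

theorem bdd_mnr {N : ℕ} (F : Fin N → MvPolynomial (Option (Fin m)) ℝ) (l : Ln m)
    (S : Fin m → Fin N) {I : Set ℝ} (hI : IsCompact I) :
    BddAbove ((fun s => |mnr (dM F (pnt s (lpos l s))) S|) '' I) :=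
  (hI.image (cont_mnr F l S).abs).bddAbove

theorem bdd_JF {N : ℕ} (F : Fin N → MvPolynomial (Option (Fin m)) ℝ) (l : Ln m) {I : Set ℝ}
    (hI : IsCompact I) : BddAbove ((fun s => JF F (pnt s (lpos l s))) '' I) := by
  classical
  have hc : Continuous fun s => ∑ S : Fin m → Fin N, |mnr (dM F (pnt s (lpos l s))) S| :=
    continuous_finset_sum _ fun S _ => (cont_mnr F l S).abs
  obtain ⟨M, hM⟩ := (hI.image hc).bddAbove
  refine ⟨M, ?_⟩
  rintro x ⟨s, hs, rfl⟩
  refine le_trans ?_ (hM ⟨s, hs, rfl⟩)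
  refine jm_le (sum_nonneg fun S _ => abs_nonneg _) fun S => ?_
  exact single_le_sum (f := fun S => |mnr (dM F (pnt s (lpos l s))) S|)
    (fun S _ => abs_nonneg _) (mem_univ S)

theorem SF_nonneg (F : Fin (nJ m E) → MvPolynomial (Option (Fin m)) ℝ) (I : Set ℝ) (l : Ln m) :
    0 ≤ SF F I l := by
  refine Real.sSup_nonneg ?_
  rintro x ⟨s, -, rfl⟩
  exact jm_nonneg _

theorem SF_mul_le {Q G : Matrix (Fin (nJ m E)) (Fin (nJ m E)) ℝ} {κ : ℝ} (hκ : 0 ≤ κ)
    (hQ : ∀ a b, |Q a b| ≤ κ) {I : Set ℝ} (hI : IsCompact I) (l : Ln m) :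
    SF (cmb (Q * G) mo) I l ≤ (nJ m E * κ) ^ m * SF (cmb G mo) I l := by
  refine Real.sSup_le ?_ (mul_nonneg (by positivity) (SF_nonneg _ _ _))
  rintro x ⟨s, hs, rfl⟩
  refine (JF_mul_le Q _ _ (cmb_mul Q G) hκ hQ _).trans ?_
  exact mul_le_mul_of_nonneg_left (le_csSup (bdd_JF _ l hI) ⟨s, hs, rfl⟩) (by positivity)

/-- The size of a smaller body is larger. -/
theorem SJ_le_of_le {A B : Bd (nJ m E)} {κ : ℝ} (hκ : 0 ≤ κ) (h : A.le κ B) (w t : ℕ)
    (l : Ln m) : SJ B w t l ≤ (nJ m E * κ) ^ m * SJ A w t l := by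
  rw [SJ_eq, SJ_eq]
  conv_lhs => rw [exp_mB (mB B) A]
  refine SF_mul_le hκ (fun a b => ?_) (isCompact_win w t) l
  rw [Matrix.of_apply, rf_mB]
  exact Bd.mem_mul_iff.mp (h (A.ax_mem b)) a

/-- **The maximal minor.** -/
theorem exists_SS {B : Bd (nJ m E)} {w t : ℕ} {l : Ln m} (h : 0 < SJ B w t l) :
    ∃ S, SS B w t S l = SJ B w t l := by
  classical
  have hne : Nonempty (Fin m → Fin (nJ m E)) := by
    by_contra hcon
    rw [not_nonempty_iff] at hcon
    have h1 : SJ B w t l ≤ 0 := by
      refine Real.sSup_le ?_ le_rfl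
      rintro x ⟨s, -, rfl⟩
      show jm _ ≤ 0
      unfold jm
      rw [Real.iSup_of_isEmpty]
    linarith
  obtain ⟨S, hS⟩ := Finite.exists_max fun S : Fin m → Fin (nJ m E) => SS B w t S l
  refine ⟨S, le_antisymm ?_ ?_⟩
  · refine csSup_le ((win_nonempty w t).image _) ?_
    rintro x ⟨s, hs, rfl⟩
    exact (le_jm _ S).trans (le_csSup (bdd_JF _ l (isCompact_win w t)) ⟨s, hs, rfl⟩)
  · refine csSup_le ((win_nonempty w t).image _) ?_
    rintro x ⟨s, hs, rfl⟩
    show jm _ ≤ _
    refine ciSup_le fun S' => ?_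
    refine le_trans ?_ (hS S')
    exact le_csSup (bdd_mnr (FB B) l S' (isCompact_win w t)) ⟨s, hs, rfl⟩

/-! ### Nodes -/

/-- The function along the line as a polynomial. -/
noncomputable def lpl (l : Ln m) (P : MvPolynomial (Option (Fin m)) ℝ) : Polynomial ℝ :=
  aeval (fun o => match o with
    | none => Polynomial.X
    | some k => Polynomial.C (l.1 k) + Polynomial.C (l.2 k) * Polynomial.X) P

theorem eval_lpl (l : Ln m) (P : MvPolynomial (Option (Fin m)) ℝ) (t : ℝ) :
    (lpl l P).eval t = ev P l t := by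
  unfold lpl ev
  induction P using MvPolynomial.induction_on with
  | C a => simp
  | add p q hp hq => rw [map_add, Polynomial.eval_add, map_add, hp, hq]
  | mul_X p o hp =>
    rw [map_mul, Polynomial.eval_mul, map_mul, hp, aeval_X, eval_X]
    congr 1
    cases o with
    | none => simp [pnt]
    | some k =>
      simp only [Polynomial.eval_add, Polynomial.eval_C, Polynomial.eval_mul, Polynomial.eval_X,
        pnt, lpos]
      ring

theorem deg_lpl (l : Ln m) (α : Ix m E) : (lpl l (mon α)).natDegree ≤ dD m E := by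
  unfold lpl mon
  rw [map_prod]
  refine (Polynomial.natDegree_prod_le _ _).trans ?_
  have h1 : ∀ o ∈ (univ : Finset (Option (Fin m))), (aeval (fun o => match o with
      | none => Polynomial.X
      | some k => Polynomial.C (l.1 k) + Polynomial.C (l.2 k) * Polynomial.X)
        (X o ^ (α o : ℕ) : MvPolynomial (Option (Fin m)) ℝ)).natDegree ≤ E := by
    intro o _
    rw [map_pow, aeval_X]
    refine (Polynomial.natDegree_pow_le).trans ?_
    have h2 : (α o : ℕ) ≤ E := Nat.lt_succ_iff.mp (α o).2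
    refine (Nat.mul_le_mul h2 (?_ : _ ≤ 1)).trans (le_of_eq (mul_one _))
    cases o with
    | none => exact Polynomial.natDegree_X_le
    | some k =>
      refine (Polynomial.natDegree_add_le _ _).trans (max_le ?_ ?_)
      · rw [Polynomial.natDegree_C]
        exact Nat.zero_le _
      · exact (Polynomial.natDegree_C_mul_le _ _).trans Polynomial.natDegree_X_le
  refine (sum_le_sum h1).trans (le_of_eq ?_)
  rw [sum_const, card_univ, Fintype.card_option, Fintype.card_fin, smul_eq_mul]
  rfl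

theorem deg_cmb (l : Ln m) (G : Matrix (Fin (nJ m E)) (Fin (nJ m E)) ℝ) (a : Fin (nJ m E)) :
    (lpl l (cmb G mo a)).natDegree ≤ dD m E := by
  unfold cmb
  have h1 : lpl l (∑ b, C (G a b) * mo b) = ∑ b, Polynomial.C (G a b) * lpl l (mo b) := by
    unfold lpl
    rw [map_sum]
    refine sum_congr rfl fun b _ => ?_
    rw [map_mul, algHom_C]
    rfl
  rw [h1]
  refine Polynomial.natDegree_sum_le_of_forall_le _ _ fun b _ => ?_
  exact (Polynomial.natDegree_C_mul_le _ _).trans (deg_lpl l _)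

theorem nod_eq (D w t : ℕ) (i : Fin (D + 1)) :
    nod D w t i = wt w t ((i : ℝ) / (D + 1)) := rfl

theorem nod_mem (D w t : ℕ) (i : Fin (D + 1)) : nod D w t i ∈ win w t := by
  rw [win_eq, nod_eq]
  refine Set.mem_image_of_mem _ ⟨by positivity, ?_⟩
  rw [div_le_one (by positivity)]
  have : (i : ℕ) ≤ D := Nat.lt_succ_iff.mp i.2
  have h2 : ((i : ℕ) : ℝ) ≤ D := by exact_mod_cast this
  linarith

/-- The constant of the interpolation. -/
noncomputable def cI (D : ℕ) : ℝ := ((D : ℝ) + 1) ^ (D + 1)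

theorem cI_pos (D : ℕ) : 0 < cI D := by
  unfold cI
  positivity

/-- **(NODES)** A polynomial which is small at the nodes is small in the window. -/
theorem nodes {D : ℕ} {P : Polynomial ℝ} (hP : P.natDegree ≤ D) {w t : ℕ} {M : ℝ}
    (h : ∀ i : Fin (D + 1), |P.eval (nod D w t i)| ≤ M) {u : ℝ} (hu : u ∈ win w t) :
    |P.eval u| ≤ cI D * M := by
  classical
  have hM : 0 ≤ M := (abs_nonneg _).trans (h 0)
  have h2 : (0 : ℝ) < 2 ^ w := by positivity
  have hD : (0 : ℝ) < (D : ℝ) + 1 := by positivity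
  have hsub : ∀ i j : Fin (D + 1), nod D w t i - nod D w t j =
      ((i : ℝ) - j) / ((D + 1) * 2 ^ w) := by
    intro i j
    unfold nod
    field_simp
    ring
  have hinj : Set.InjOn (nod D w t) ((univ : Finset (Fin (D + 1))) : Set (Fin (D + 1))) := by
    intro i _ j _ hij
    have h3 := hsub i j
    rw [hij, sub_self, eq_comm, div_eq_zero_iff] at h3
    rcases h3 with h3 | h3
    · have h4 : (i : ℝ) = j := by linarith
      exact Fin.ext (by exact_mod_cast h4)
    · exact absurd h3 (by positivity)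
  have hdeg : P.degree < ((univ : Finset (Fin (D + 1))).card : ℕ) := by
    rw [card_univ, Fintype.card_fin]
    refine lt_of_le_of_lt Polynomial.degree_le_natDegree ?_
    exact_mod_cast Nat.lt_succ_of_le hP
  have h3 := Lagrange.eq_interpolate hinj hdeg
  obtain ⟨s, ⟨hs0, hs1⟩, hsu⟩ : u ∈ wt w t '' Set.Icc (0 : ℝ) 1 := by
    rw [← win_eq]
    exact hu
  have hb : ∀ i : Fin (D + 1), |(Lagrange.basis univ (nod D w t) i).eval u| ≤
      ((D : ℝ) + 1) ^ D := by
    intro i
    unfold Lagrange.basis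
    rw [Polynomial.eval_prod, abs_prod]
    have h4 : ∀ j ∈ univ.erase i,
        |(Lagrange.basisDivisor (nod D w t i) (nod D w t j)).eval u| ≤ (D : ℝ) + 1 := by
      intro j hj
      have hne : j ≠ i := (mem_erase.mp hj).1
      unfold Lagrange.basisDivisor
      rw [Polynomial.eval_mul, Polynomial.eval_C, Polynomial.eval_sub, Polynomial.eval_X,
        Polynomial.eval_C, abs_mul, abs_inv, hsub, abs_div,
        abs_of_pos (mul_pos hD h2), inv_div, div_mul_eq_mul_div, div_le_iff₀]
      · have h5 : |u - nod D w t j| ≤ 1 / 2 ^ w := by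
          rw [← hsu, nod_eq]
          unfold wt
          rw [← sub_div, abs_div, abs_of_pos h2]
          refine div_le_div_of_nonneg_right ?_ h2.le
          have hj1 : ((j : ℕ) : ℝ) / (D + 1) ≤ 1 := by
            rw [div_le_one hD]
            have : (j : ℕ) ≤ D := Nat.lt_succ_iff.mp j.2
            have h2 : ((j : ℕ) : ℝ) ≤ D := by exact_mod_cast this
            linarith
          have hj0 : (0 : ℝ) ≤ ((j : ℕ) : ℝ) / (D + 1) := by positivity
          rw [abs_le]
          constructor <;> linarith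
        have h6 : (1 : ℝ) ≤ |(i : ℝ) - j| := by
          have h7 : ((i : ℤ) - (j : ℤ)) ≠ 0 := by
            intro h8
            exact hne (Fin.ext (by omega))
          have h9 := Int.one_le_abs h7
          exact_mod_cast h9
        calc (D + 1) * 2 ^ w * |u - nod D w t j| ≤ (D + 1) * 2 ^ w * (1 / 2 ^ w) :=
              mul_le_mul_of_nonneg_left h5 (by positivity)
          _ = (D : ℝ) + 1 := by field_simp
          _ ≤ (D + 1) * |(i : ℝ) - j| := by nlinarith
      · have h7 : ((i : ℤ) - (j : ℤ)) ≠ 0 := by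
          intro h8
          exact hne (Fin.ext (by omega))
        have h9 := Int.one_le_abs h7
        have h10 : (1 : ℝ) ≤ |(i : ℝ) - j| := by exact_mod_cast h9
        linarith
    refine (prod_le_prod (fun j _ => abs_nonneg _) h4).trans (le_of_eq ?_)
    rw [prod_const, card_erase_of_mem (mem_univ i), card_univ, Fintype.card_fin,
      Nat.add_sub_cancel]
  rw [h3, Lagrange.interpolate_apply, Polynomial.eval_finset_sum]
  refine (abs_sum_le_sum_abs _ _).trans ?_
  have h5 : ∀ i ∈ (univ : Finset (Fin (D + 1))),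
      |(Polynomial.C (P.eval (nod D w t i)) * Lagrange.basis univ (nod D w t) i).eval u| ≤
        M * ((D : ℝ) + 1) ^ D := by
    intro i _
    rw [Polynomial.eval_mul, Polynomial.eval_C, abs_mul]
    exact mul_le_mul (h i) (hb i) (abs_nonneg _) hM
  refine (sum_le_sum h5).trans (le_of_eq ?_)
  rw [sum_const, card_univ, Fintype.card_fin, nsmul_eq_mul]
  unfold cI
  push_cast
  ring

/-- Two lines whose values are close at the nodes have close values in the window. -/
theorem nodes_diff (B : Bd (nJ m E)) {l l' : Ln m} {w t : ℕ} {M : ℝ}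
    (h : ∀ i a, |B.fn a (phl E l (nod (dD m E) w t i)) -
      B.fn a (phl E l' (nod (dD m E) w t i))| ≤ M) {u : ℝ} (hu : u ∈ win w t)
    (a : Fin (nJ m E)) :
    |B.fn a (phl E l u) - B.fn a (phl E l' u)| ≤ cI (dD m E) * M := by
  have key : ∀ s, B.fn a (phl E l s) - B.fn a (phl E l' s) =
      (lpl l (cmb (mB B) mo a) - lpl l' (cmb (mB B) mo a)).eval s := by
    intro s
    rw [Polynomial.eval_sub, eval_lpl, eval_lpl, ← rf_phl, ← rf_phl, rf_mB]
  rw [key]
  refine nodes ?_ (fun i => ?_) hu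
  · refine (Polynomial.natDegree_sub_le _ _).trans (max_le ?_ ?_)
    · exact deg_cmb l _ a
    · exact deg_cmb l' _ a
  · rw [← key]
    exact h i a

end Pool.TB
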